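import Pool.Agent.H15.F8.Defs

/-!
# Project MP_f8d35d_nt: basic lemmas on points, Galois actions and restriction
-/

open WeierstrassCurve WeierstrassCurve.Affine

namespace F8

section pts

variable {A B C : Type} [Field A] [Field B] [Field C] [DecidableEq A] [DecidableEq B]
  [DecidableEq C] [Algebra ℚ A] [Algebra ℚ B] [Algebra ℚ C]

omit [DecidableEq A] in
theorem equation_iff' (x y : A) : (E⁄A).Equation x y ↔ y ^ 2 + 2 * x * y - 949 * y = x ^ 3 := by
  rw [Affine.equation_iff]
  simp only [E, WeierstrassCurve.baseChange, WeierstrassCurve.map_a₁, WeierstrassCurve.map_a₂,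
    WeierstrassCurve.map_a₃, WeierstrassCurve.map_a₄, WeierstrassCurve.map_a₆, map_zero, map_neg,
    map_ofNat]
  constructor <;> intro h <;> linear_combination h

omit [DecidableEq A] in
theorem nonsingular_iff' (x y : A) :
    (E⁄A).Nonsingular x y ↔ y ^ 2 + 2 * x * y - 949 * y = x ^ 3 := by
  rw [← equation_iff', Affine.nonsingular_iff]
  refine ⟨fun h => h.1, fun h => ⟨h, ?_⟩⟩
  rw [equation_iff'] at h
  simp only [E, WeierstrassCurve.baseChange, WeierstrassCurve.map_a₁, WeierstrassCurve.map_a₂,
    WeierstrassCurve.map_a₃, WeierstrassCurve.map_a₄, map_zero, map_neg, map_ofNat]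
  by_contra hcon
  push Not at hcon
  obtain ⟨h1, h2⟩ := hcon
  have hA : CharZero A := algebraRat.charZero A
  -- 2y = 3x^2, 2y = -2x + 949
  have e1 : 2 * y = 3 * x ^ 2 := by linear_combination h1
  have e2 : 2 * y = -(2 * x) + 949 := by linear_combination h2
  have e3 : 3 * x ^ 2 + 2 * x - 949 = 0 := by linear_combination e2 - e1
  have e4 : (3 * x ^ 2) ^ 2 + 2 * x * (2 * (3 * x ^ 2)) - 949 * (2 * (3 * x ^ 2)) = 4 * x ^ 3 := by
    rw [← e1]; linear_combination 4 * h
  have e5 : x ^ 2 * (9 * x ^ 2 + 8 * x - 5694) = 0 := by linear_combination e4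
  rcases mul_eq_zero.mp e5 with h0 | h0
  · have hx : x = 0 := by simpa using h0
    rw [hx] at e3
    norm_num at e3
  · -- 9x^2+8x-5694 = 0 and 3x^2+2x-949 = 0
    have e6 : 2 * x = 2847 := by linear_combination h0 - 3 * e3
    have e7 : 3 * (2 * x) ^ 2 + 4 * (2 * x) - 4 * 949 = 0 := by linear_combination 4 * e3
    rw [e6] at e7
    norm_num at e7

omit [DecidableEq A] in
theorem pt_eqn (R : Pt A) (h : R ≠ 0) :
    yc R ^ 2 + 2 * xc R * yc R - 949 * yc R = xc R ^ 3 := by
  match R, h with
  | 0, h => exact absurd rfl h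
  | .some x y hn, _ => exact (nonsingular_iff' x y).1 hn

/-- the point of order three -/
noncomputable def PT : Pt A := .some 0 0 ((nonsingular_iff' 0 0).2 (by ring))

omit [DecidableEq A] in
@[simp] theorem xc_zero : xc (0 : Pt A) = 0 := rfl
omit [DecidableEq A] in
@[simp] theorem yc_zero : yc (0 : Pt A) = 0 := rfl
omit [DecidableEq A] in
@[simp] theorem xc_some {x y : A} (h : (E⁄A).Nonsingular x y) : xc (Point.some x y h) = x := rfl
omit [DecidableEq A] in
@[simp] theorem yc_some {x y : A} (h : (E⁄A).Nonsingular x y) : yc (Point.some x y h) = y := rfl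
omit [DecidableEq A] in
@[simp] theorem xc_PT : xc (PT : Pt A) = 0 := rfl
omit [DecidableEq A] in
@[simp] theorem yc_PT : yc (PT : Pt A) = 0 := rfl

omit [DecidableEq A] in
theorem PT_ne_zero : (PT : Pt A) ≠ 0 := by
  intro h; exact Point.some_ne_zero _ h

omit [DecidableEq A] in
theorem xc_neg (R : Pt A) : xc (-R) = xc R := by
  match R with
  | 0 => rfl
  | .some x y hn => rfl

omit [DecidableEq A] in
theorem yc_neg (R : Pt A) (h : R ≠ 0) : yc (-R) = -yc R - 2 * xc R + 949 := by
  match R, h with
  | 0, h => exact absurd rfl h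
  | .some x y hn, _ =>
    change (E⁄A).negY x y = -y - 2 * x + 949
    simp only [Affine.negY, E, WeierstrassCurve.baseChange,
      WeierstrassCurve.map_a₁, WeierstrassCurve.map_a₃, map_neg, map_ofNat]
    ring

omit [DecidableEq A] in
theorem pt_ext {R S : Pt A} (hR : R ≠ 0) (hS : S ≠ 0) (hx : xc R = xc S) (hy : yc R = yc S) :
    R = S := by
  match R, S, hR, hS with
  | 0, _, h, _ => exact absurd rfl h
  | _, 0, _, h => exact absurd rfl h
  | .some x y hn, .some x' y' hn', _, _ =>
    simp only [xc_some, yc_some] at hx hy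
    subst hx; subst hy; rfl

omit [DecidableEq A] in
theorem neg_PT_ne_zero : (-PT : Pt A) ≠ 0 := by
  intro h; exact Point.some_ne_zero _ h

omit [DecidableEq A] in
theorem xc_eq_zero_iff (R : Pt A) : xc R = 0 ↔ R = 0 ∨ R = PT ∨ R = -PT := by
  constructor
  · intro h
    by_cases hR : R = 0
    · exact Or.inl hR
    right
    have e := pt_eqn R hR
    rw [h] at e
    have hA : CharZero A := algebraRat.charZero A
    have e' : yc R * (yc R - 949) = 0 := by linear_combination e
    rcases mul_eq_zero.mp e' with h0 | h0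
    · left; exact pt_ext hR PT_ne_zero (by simp [h]) (by simp [h0])
    · right
      refine pt_ext hR neg_PT_ne_zero (by rw [xc_neg]; simp [h]) ?_
      rw [yc_neg _ PT_ne_zero]; simp only [yc_PT, xc_PT]
      linear_combination h0
  · rintro (h | h | h) <;> rw [h] <;> simp [xc_neg]

theorem PT_add_PT : (PT : Pt A) + PT = -PT := by
  have hA : CharZero A := algebraRat.charZero A
  have hne : (0 : A) ≠ (E⁄A).negY 0 0 := by
    simp only [Affine.negY, E, WeierstrassCurve.baseChange,
      WeierstrassCurve.map_a₁, WeierstrassCurve.map_a₃, map_neg, map_ofNat]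
    norm_num
  have h := Point.add_self_of_Y_ne (W := (E⁄A)) (h₁ := (nonsingular_iff' (0:A) 0).2 (by ring)) hne
  have hs : (E⁄A).slope 0 0 0 0 = 0 := by
    rw [Affine.slope_of_Y_ne rfl hne]
    simp [E, WeierstrassCurve.baseChange]
  have h1 : (PT : Pt A) + PT = Point.some _ _ _ := h
  rw [h1]
  refine pt_ext (Point.some_ne_zero _) neg_PT_ne_zero ?_ ?_
  · rw [xc_neg]
    simp only [xc_some, xc_PT, Affine.addX, hs]
    simp [E, WeierstrassCurve.baseChange]
  · rw [yc_neg _ PT_ne_zero]
    simp only [yc_some, xc_PT, yc_PT, Affine.addY, Affine.negAddY, Affine.addX, Affine.negY, hs]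
    simp [E, WeierstrassCurve.baseChange]

theorem three_PT : (3 : ℕ) • (PT : Pt A) = 0 := by
  rw [show (3 : ℕ) = 2 + 1 from rfl, add_nsmul, two_nsmul, one_nsmul, PT_add_PT]; simp

theorem xc_pm (f : A →+* B) (R : Pt A) : xc (pm f R) = f (xc R) := by
  match R with
  | 0 => exact (map_zero f).symm
  | .some x y hn => rfl

theorem yc_pm (f : A →+* B) (R : Pt A) : yc (pm f R) = f (yc R) := by
  match R with
  | 0 => exact (map_zero f).symm
  | .some x y hn => rfl

theorem pm_injective (f : A →+* B) : Function.Injective (pm f) :=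
  WeierstrassCurve.Affine.Point.map_injective (RingHom.toRatAlgHom f)

theorem pm_eq_zero (f : A →+* B) {R : Pt A} : pm f R = 0 ↔ R = 0 :=
  map_eq_zero_iff _ (pm_injective f)

theorem pm_comp (g : B →+* C) (f : A →+* B) (R : Pt A) : pm g (pm f R) = pm (g.comp f) R := by
  match R with
  | 0 => rfl
  | .some x y hn => rfl

theorem pm_id (R : Pt A) : pm (RingHom.id A) R = R := by
  match R with
  | 0 => rfl
  | .some x y hn => rfl

@[simp] theorem pm_PT (f : A →+* B) : pm f PT = PT := by
  refine pt_ext ((pm_eq_zero f).not.2 PT_ne_zero) PT_ne_zero ?_ ?_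
  · rw [xc_pm]; simp
  · rw [yc_pm]; simp

theorem eta_pm (f : A →+* B) (R : Pt A) : eta (pm f R) = f (eta R) := by
  unfold eta
  rw [xc_pm, yc_pm]
  by_cases h : xc R = 0
  · simp [h]
  · rw [if_neg h, if_neg ((map_ne_zero f).2 h)]
    simp [map_ofNat]

theorem eta_zero : eta (0 : Pt A) = 1 := by simp [eta]
theorem eta_PT : eta (PT : Pt A) = 1 := by simp [eta]
theorem eta_neg_PT : eta (-PT : Pt A) = 1 := by simp [eta, xc_neg]

theorem Dl_pm (f : A →+* B) (R : Pt A) : Dl (pm f R) = f (Dl R) := by
  unfold Dl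
  rw [xc_pm]; simp [map_ofNat]

theorem bet_pm (f : A →+* B) (w : A) (R : Pt A) : bet (f w) (pm f R) = f (bet w R) := by
  unfold bet
  rw [xc_pm, yc_pm]; simp [map_ofNat]

theorem sf_pm (f : A →+* B) (w : A) (R : Pt A) : sf (f w) (pm f R) = f (sf w R) := by
  unfold sf
  rw [← map_pow f w 2, bet_pm, bet_pm, xc_pm]; simp [map_ofNat]

theorem tf_pm (f : A →+* B) (w : A) (R : Pt A) : tf (f w) (pm f R) = f (tf w R) := by
  unfold tf
  rw [← map_pow f w 2, bet_pm, bet_pm, xc_pm]; simp [map_ofNat]

end pts

/-! ### Galois actions -/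

theorem om_ne_one : om ≠ 1 := by
  intro h
  have := om_spec
  rw [h] at this
  norm_num at this

theorem om_cube : om ^ 3 = 1 := by
  linear_combination (om - 1) * om_spec

theorem om_ne_zero : om ≠ 0 := by
  intro h
  have := om_spec
  rw [h] at this
  norm_num at this

/-- a field automorphism sends `om` to `om` or `om ^ 2` -/
theorem gam_om (s : Gam) : s om = om ∨ s om = om ^ 2 := by
  have h : (s om) ^ 2 + s om + 1 = 0 := by
    have := congrArg s om_spec
    simpa using this
  have h2 : (s om - om) * (s om - om ^ 2) = 0 := by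
    linear_combination h + (om - 1 - s om) * om_spec
  rcases mul_eq_zero.mp h2 with h | h
  · left; linear_combination h
  · right; linear_combination h

end F8
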