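import Pool.Agent.H15.F8.Claim2

/-!
# Project MP_f8d35d_nt: the bound for the Selmer group of `KK` and of `ℚ`
-/

namespace F8

theorem mem_KK_iff (x : Qbar) : x ∈ KK ↔ ∀ s ∈ HK, s x = x := by
  rw [mem_iff_fixed]
  constructor
  · intro h s hs
    exact h s (fun a ha => (IntermediateField.mem_fixingSubgroup_iff _ s).1 hs a ha)
  · intro h g hg
    exact h g ((IntermediateField.mem_fixingSubgroup_iff _ g).2 hg)

theorem cube_mem_pow (q : ℚ) (h : q ^ 3 = 1) : q = 1 := by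
  have h1 : (q - 1) * (q ^ 2 + q + 1) = 0 := by linear_combination h
  rcases mul_eq_zero.mp h1 with h2 | h2
  · linear_combination h2
  · nlinarith [sq_nonneg (2 * q + 1)]

theorem fixed_all (hK : KSetupStmt) {σ : Gam} (h1 : σ om = om) (h2 : σ th = om * th) {x : Qbar}
    (hx : ∀ s ∈ HK, s x = x) (hσ : σ x = x) : ∀ r : Gam, r x = x := by
  intro r
  obtain ⟨j, _, g, hg, rfl⟩ := hK.2.2.2.2 σ h1 h2 r
  rw [AlgEquiv.mul_apply, hx g hg]
  induction j with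
  | zero => simp
  | succ j ih => rw [pow_succ, AlgEquiv.mul_apply, hσ, ih (by omega)]

/-- elements of `KK` are stable under `σ` -/
theorem sigma_fix (hK : KSetupStmt) {x : Qbar} (hx : ∀ s ∈ HK, s x = x) (r : Gam) :
    ∀ s ∈ HK, s (r x) = r x := by
  intro s hs
  have h := hx _ (conj_mem hK.2.2.1 r hs)
  have h2 := congrArg r h
  rw [AlgEquiv.mul_apply, AlgEquiv.mul_apply, ← AlgEquiv.mul_apply, mul_inv_cancel,
    AlgEquiv.one_apply] at h2
  exact h2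

theorem sigma_three (hK : KSetupStmt) {σ : Gam} (h1 : σ om = om) (h2 : σ th = om * th) {x : Qbar}
    (hx : ∀ s ∈ HK, s x = x) : σ (σ (σ x)) = x := by
  have := hx _ (sigma_cube hK h1 h2)
  rw [pow_succ, pow_succ, pow_one, AlgEquiv.mul_apply, AlgEquiv.mul_apply] at this
  exact this

/-- an invariant class has a generator with rational cube -/
theorem gen_rational (hEta : EtaStmt) (h90 : H90Stmt) (hK : KSetupStmt) (h90K : H90KStmt)
    {c : Gam → Pt Qbar} (hc : IsSel HK c)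
    (hinv : ∀ r : Gam, IsCob HK (fun s => conj r c s - c s)) :
    ∃ δ : Qbar, Gen HK c δ ∧ ∃ q : ℚ, δ ^ 3 = (q : Qbar) := by
  obtain ⟨σ, h1, h2⟩ := hK.2.2.2.1
  obtain ⟨δ0, hg0⟩ := exists_gen h90 hEta hc
  obtain ⟨A, hA, hcob⟩ := hinv σ
  have hEt := hEta Qbar om om_spec
  have hetaA : eta A ≠ 0 := by
    intro h0
    have := hEt.1 A hA
    rw [h0] at this; norm_num at this
  have hσδ : σ δ0 ≠ 0 := (map_ne_zero σ).2 hg0.1
  set u : Qbar := σ δ0 / (δ0 * eta A) with hu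
  have hu0 : u ≠ 0 := div_ne_zero hσδ (mul_ne_zero hg0.1 hetaA)
  -- `u` is fixed by `HK`
  have hufix : ∀ s ∈ HK, s u = u := by
    intro s hs
    have e1 : s (σ δ0) = eta (conj σ c s) * σ δ0 := by
      have e2 := hg0.2 _ (conj_mem hK.2.2.1 σ hs)
      have e3 := congrArg σ e2
      rw [AlgEquiv.mul_apply, AlgEquiv.mul_apply, ← AlgEquiv.mul_apply σ σ⁻¹, mul_inv_cancel,
        AlgEquiv.one_apply, map_mul] at e3
      rw [e3]
      congr 1
      unfold F8.conj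
      rw [eta_pm]; rfl
    have e4 : eta (conj σ c s) * eta A = eta (c s) * s (eta A) := by
      have e5 : conj σ c s + A = c s + act s A := by
        have := hcob s hs
        simp only at this
        have h6 : conj σ c s = (conj σ c s - c s) + c s := by abel
        rw [h6, this]
        change act s A - A + c s + A = c s + act s A
        abel
      have h7 := (hc.conj hK.2.2.1 σ).tor s hs
      have e6 := hEt.2.1 _ _ h7 hA
      have e7 := hEt.2.1 _ _ (hc.tor s hs) (show (3 : ℕ) • act s A = 0 by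
        rw [← map_nsmul, hA, map_zero])
      rw [← e6, e5, e7, eta_pm]; rfl
    have hsA : s (eta A) ≠ 0 := (map_ne_zero s).2 hetaA
    have hce : eta (c s) ≠ 0 := by
      intro h0
      have := hEt.1 _ (hc.tor s hs)
      rw [h0] at this; norm_num at this
    rw [hu, map_div₀, map_mul, e1, hg0.2 s hs,
      div_eq_div_iff (mul_ne_zero (mul_ne_zero hce hg0.1) hsA) (mul_ne_zero hg0.1 hetaA)]
    linear_combination δ0 * σ δ0 * e4
  have hu3 : u ^ 3 * δ0 ^ 3 = σ (δ0 ^ 3) := by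
    rw [hu, div_pow, mul_pow, hEt.1 A hA, mul_one, map_pow,
      div_mul_cancel₀ _ (pow_ne_zero _ hg0.1)]
  have hd := gen_cube hEta hc hg0
  -- norm of `u`
  have hN : u * σ u * σ (σ u) = 1 := by
    have hfix : ∀ s ∈ HK, s (u * σ u * σ (σ u)) = u * σ u * σ (σ u) := by
      intro s hs
      rw [map_mul, map_mul, hufix s hs, sigma_fix hK hufix σ s hs,
        sigma_fix hK (sigma_fix hK hufix σ) σ s hs]
    have hσN : σ (u * σ u * σ (σ u)) = u * σ u * σ (σ u) := by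
      rw [map_mul, map_mul, sigma_three hK h1 h2 hufix]; ring
    obtain ⟨q, hq⟩ := fix_rat _ (fixed_all hK h1 h2 hfix hσN)
    have hN3 : (u * σ u * σ (σ u)) ^ 3 = 1 := by
      have e1 : u ^ 3 = σ (δ0 ^ 3) / δ0 ^ 3 := by
        rw [← hu3]; exact (mul_div_cancel_right₀ _ (pow_ne_zero _ hg0.1)).symm
      have e2 : (σ u) ^ 3 = σ (σ (δ0 ^ 3)) / σ (δ0 ^ 3) := by
        rw [← map_pow, e1, map_div₀]
      have e3 : (σ (σ u)) ^ 3 = σ (σ (σ (δ0 ^ 3))) / σ (σ (δ0 ^ 3)) := by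
        rw [← map_pow, e2, map_div₀]
      rw [mul_pow, mul_pow, e1, e2, e3, sigma_three hK h1 h2 hd]
      have n1 : δ0 ^ 3 ≠ 0 := pow_ne_zero _ hg0.1
      have n2 : σ (δ0 ^ 3) ≠ 0 := (map_ne_zero σ).2 n1
      have n3 : σ (σ (δ0 ^ 3)) ≠ 0 := (map_ne_zero σ).2 n2
      generalize σ (σ (δ0 ^ 3)) = C at n3 ⊢
      generalize σ (δ0 ^ 3) = B at n2 ⊢
      generalize δ0 ^ 3 = A' at n1 ⊢
      field_simp
    rw [hq] at hN3 ⊢
    have : q ^ 3 = 1 := by exact_mod_cast hN3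
    rw [cube_mem_pow q this]; simp
  obtain ⟨v, hv, hv0, hσv⟩ := h90K σ h1 h2 u ((mem_KK_iff u).2 hufix) hN
  have hvfix := (mem_KK_iff v).1 hv
  have hg : Gen HK c (δ0 / v) := by
    refine ⟨div_ne_zero hg0.1 hv0, fun s hs => ?_⟩
    rw [map_div₀, hg0.2 s hs, hvfix s hs, mul_div_assoc]
  refine ⟨δ0 / v, hg, ?_⟩
  refine fix_rat _ (fixed_all hK h1 h2 (gen_cube hEta hc hg) ?_)
  rw [div_pow, map_div₀, map_pow σ v, hσv, mul_pow, ← hu3]
  have : u ^ 3 ≠ 0 := pow_ne_zero _ hu0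
  field_simp

section main

variable (hEta : EtaStmt) (hI1 : I1Stmt) (hI19 : I19Stmt) (hKum : KumStmt) (hOm : OmStmt)
  (h90 : H90Stmt) (hK : KSetupStmt) (hRat : RatStmt) (hNum2 : Num2Stmt)

include hI1 hRat

theorem rational_part {H : Subgroup Gam} {θ : Qbar} (hS : Setup H θ) (hV : VStmt θ)
    {c : Gam → Pt Qbar} (hc : IsSel H c) {δ : Qbar} (hg : Gen H c δ) {q : ℚ}
    (hq : δ ^ 3 = (q : Qbar)) :
    ∃ i j m : ℕ, i < 3 ∧ j < 3 ∧ m < 3 ∧ ∃ t : ℚ, t ≠ 0 ∧ q = 13 ^ i * 73 ^ j * 19 ^ m * t ^ 3 := by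
  have hq0 : q ≠ 0 := by
    rintro rfl
    apply hg.1
    have : δ ^ 3 = 0 := by rw [hq]; simp
    exact pow_eq_zero_iff (by norm_num) |>.1 this
  obtain ⟨i, j, m, hi, hj, hm, t, ht⟩ := hRat q hq0 (fun p hp h1 h2 h3 =>
    val_div hI1 hS hV hc hg hq hp h1 h2 h3)
  refine ⟨i, j, m, hi, hj, hm, t, ?_, ht⟩
  rintro rfl
  apply hq0
  rw [ht]; ring

include hEta hI19 hKum hOm hNum2

include hK in
/-- invariant classes over `KK` -/
theorem claim2 (hV : VStmt th) (h90' : H90Stmt) (h90K : H90KStmt) (hD19 : D19Stmt)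
    {c : Gam → Pt Qbar} (hc : IsSel HK c)
    (hinv : ∀ r : Gam, IsCob HK (fun s => conj r c s - c s)) :
    ∃ δ : Qbar, Gen HK c δ ∧ ∃ i : ℕ, i < 3 ∧ ∃ t : ℚ, t ≠ 0 ∧
      δ ^ 3 = ((949 ^ i * t ^ 3 : ℚ) : Qbar) := by
  obtain ⟨δ, hg, q, hq⟩ := gen_rational hEta h90' hK h90K hc hinv
  obtain ⟨i, j, m, hi, hj, hm, t, ht, hqt⟩ :=
    rational_part hI1 hRat hK.1 hV hc hg hq
  have hv := hD19 c hc hinv δ hg.1 hg.2 q hq
  obtain rfl := unit_exponents hm ht hqt hv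
  have : Fact (Nat.Prime 19) := ⟨by norm_num⟩
  obtain ⟨e⟩ := exists_emb 19
  obtain ⟨n, hn, u, hu⟩ := at19 hI19 hKum hOm hK.1 hc hg ht (by rw [hq, hqt]) e
  rw [pow_zero, mul_one, th_spec] at hu
  have hij := (hNum2 e i j 0 hi hj (by norm_num)).1 ⟨n, hn, u, hu⟩
  subst hij
  refine ⟨δ, hg, i, hi, t, ht, ?_⟩
  rw [hq, hqt]
  congr 1
  rw [pow_zero, mul_one, ← mul_pow]; norm_num

include hK in
/-- classes over `ℚ` -/
theorem claim2Q (hV : VStmt 1) (h90' : H90Stmt) {c : Gam → Pt Qbar} (hc : IsSel ⊤ c) :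
    ∃ δ : Qbar, Gen ⊤ c δ ∧ ∃ i : ℕ, i < 3 ∧ ∃ t : ℚ, t ≠ 0 ∧
      δ ^ 3 = ((949 ^ i * t ^ 3 : ℚ) : Qbar) := by
  obtain ⟨δ, hg⟩ := exists_gen h90' hEta hc
  obtain ⟨q, hq⟩ := fix_rat (δ ^ 3) (fun s => gen_cube hEta hc hg s (Subgroup.mem_top s))
  obtain ⟨i, j, m, hi, hj, hm, t, ht, hqt⟩ :=
    rational_part hI1 hRat hK.2.1 hV hc hg hq
  have : Fact (Nat.Prime 19) := ⟨by norm_num⟩
  obtain ⟨e⟩ := exists_emb 19
  obtain ⟨n, hn, u, hu⟩ := at19 hI19 hKum hOm hK.2.1 hc hg ht (by rw [hq, hqt]) e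
  rw [one_pow, map_one, one_pow, one_mul] at hu
  obtain ⟨hij, rfl⟩ := (hNum2 e i j m hi hj hm).2 ⟨u, hu⟩
  subst hij
  refine ⟨δ, hg, i, hi, t, ht, ?_⟩
  rw [hq, hqt]
  congr 1
  rw [pow_zero, mul_one, ← mul_pow]; norm_num

end main

end F8
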