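import Mathlib

/-!
# The `3`-Selmer group of an elliptic curve over `ℚ` over a number field

For a Weierstrass curve `W` over `ℚ` and a number field `K`,
`Sel(W/K) = ker (H^1(K, W[3]) → ∏_v H^1(K_v, W))`, the product being over all places `v` of `K`
(finite and infinite), with continuous cochains of absolute Galois groups.
-/

open WeierstrassCurve WeierstrassCurve.Affine IsDedekindDomain NumberField

namespace Selmer

noncomputable section

/-- decidable equality on algebraic closures (needed for the group law on points) -/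
instance decAC (k : Type) [Field k] : DecidableEq (AlgebraicClosure k) := Classical.decEq _

variable (W : WeierstrassCurve ℚ) (K : Type) [Field K] [CharZero K]

/-- the group `W(Kbar)` of points over the algebraic closure of `K` -/
abbrev GeomPoints : Type := (W⁄(AlgebraicClosure K)).Point

variable {K}

/-- the action of `Gal(Kbar/K)` on `W(Kbar)` -/
def galAct (g : AlgebraicClosure K ≃ₐ[K] AlgebraicClosure K) : GeomPoints W K →+ GeomPoints W K :=
  Point.map (g : AlgebraicClosure K →ₐ[K] AlgebraicClosure K)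

variable (K)

/-- `Z^1(K, W[3])`: continuous (locally constant) `1`-cocycles of `Gal(Kbar/K)` (Krull topology)
with values in the `3`-torsion of `W(Kbar)` -/
def cocycles : AddSubgroup ((AlgebraicClosure K ≃ₐ[K] AlgebraicClosure K) → GeomPoints W K) where
  carrier := {c | IsLocallyConstant c ∧ (∀ g, (3 : ℕ) • c g = 0) ∧
    ∀ g h, c (g * h) = c g + galAct W g (c h)}
  zero_mem' := ⟨IsLocallyConstant.const 0, fun g => by simp, fun g h => by simp⟩
  add_mem' := by
    rintro c c' ⟨h1, h2, h3⟩ ⟨h1', h2', h3'⟩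
    refine ⟨h1.add h1', fun g => ?_, fun g h => ?_⟩
    · rw [Pi.add_apply, nsmul_add, h2, h2', add_zero]
    · rw [Pi.add_apply, Pi.add_apply, Pi.add_apply, h3, h3', map_add]; abel
  neg_mem' := by
    rintro c ⟨h1, h2, h3⟩
    refine ⟨h1.neg, fun g => ?_, fun g h => ?_⟩
    · rw [Pi.neg_apply, neg_nsmul, h2, neg_zero]
    · rw [Pi.neg_apply, Pi.neg_apply, Pi.neg_apply, h3, map_neg]; abel

/-- `B^1(K, W[3])`: the coboundaries `g ↦ gT - T` with `T ∈ W[3]` -/
def coboundaries :
    AddSubgroup ((AlgebraicClosure K ≃ₐ[K] AlgebraicClosure K) → GeomPoints W K) where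
  carrier := {c | ∃ T : GeomPoints W K, (3 : ℕ) • T = 0 ∧ ∀ g, c g = galAct W g T - T}
  zero_mem' := ⟨0, by simp, fun g => by simp⟩
  add_mem' := by
    rintro c c' ⟨T, h1, h2⟩ ⟨T', h1', h2'⟩
    refine ⟨T + T', by rw [nsmul_add, h1, h1', add_zero], fun g => ?_⟩
    rw [Pi.add_apply, h2, h2', map_add]; abel
  neg_mem' := by
    rintro c ⟨T, h1, h2⟩
    refine ⟨-T, by rw [neg_nsmul, h1, neg_zero], fun g => ?_⟩
    rw [Pi.neg_apply, h2, map_neg]; abel

/-- For an extension `L` of `K` (a completion of `K`) and a cocycle `c` of `Gal(Kbar/K)` with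
values in `W(Kbar)`: the class of `c` becomes trivial in `H^1(L, W)`. An embedding
`i : Kbar → Lbar` over `K` induces the restriction map `Gal(Lbar/L) → Gal(Kbar/K)`, `g ↦ g0` with
`g ∘ i = i ∘ g0`, and the class of the cocycle `g ↦ i(c(g0))` is trivial if it is of the form
`g ↦ gR - R` for some `R ∈ W(Lbar)`. -/
def LocallyTrivial (L : Type) [Field L] [CharZero L] [Algebra K L]
    (c : (AlgebraicClosure K ≃ₐ[K] AlgebraicClosure K) → GeomPoints W K) : Prop :=
  ∀ i : AlgebraicClosure K →ₐ[K] AlgebraicClosure L, ∃ R : GeomPoints W L,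
    ∀ (g : AlgebraicClosure L ≃ₐ[L] AlgebraicClosure L)
      (g0 : AlgebraicClosure K ≃ₐ[K] AlgebraicClosure K), (∀ x, g (i x) = i (g0 x)) →
      Point.map i (c g0) = galAct W g R - R

theorem LocallyTrivial.zero (L : Type) [Field L] [CharZero L] [Algebra K L] :
    LocallyTrivial W K L 0 :=
  fun _ => ⟨0, fun g g0 _ => by simp⟩

variable {K}

theorem LocallyTrivial.add {L : Type} [Field L] [CharZero L] [Algebra K L]
    {c c' : (AlgebraicClosure K ≃ₐ[K] AlgebraicClosure K) → GeomPoints W K}
    (h : LocallyTrivial W K L c) (h' : LocallyTrivial W K L c') :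
    LocallyTrivial W K L (c + c') := by
  intro i
  obtain ⟨R, hR⟩ := h i
  obtain ⟨R', hR'⟩ := h' i
  refine ⟨R + R', fun g g0 hg => ?_⟩
  rw [Pi.add_apply, map_add, hR g g0 hg, hR' g g0 hg, map_add]; abel

theorem LocallyTrivial.neg {L : Type} [Field L] [CharZero L] [Algebra K L]
    {c : (AlgebraicClosure K ≃ₐ[K] AlgebraicClosure K) → GeomPoints W K}
    (h : LocallyTrivial W K L c) : LocallyTrivial W K L (-c) := by
  intro i
  obtain ⟨R, hR⟩ := h i
  refine ⟨-R, fun g g0 hg => ?_⟩
  rw [Pi.neg_apply, map_neg, hR g g0 hg, map_neg]; abel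

variable (K) [NumberField K]

instance (v : HeightOneSpectrum (𝓞 K)) : CharZero (v.adicCompletion K) :=
  charZero_of_injective_algebraMap (algebraMap K (v.adicCompletion K)).injective

instance (v : InfinitePlace K) : CharZero v.Completion :=
  charZero_of_injective_algebraMap (algebraMap K v.Completion).injective

/-- cocycles in `Z^1(K, W[3])` whose class lies in the Selmer group, i.e. whose class in
`H^1(K_v, W)` is trivial for all finite places `v` (nonzero primes of the ring of integers) and
all infinite places `v` of `K` -/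
def selmerCocycles :
    AddSubgroup ((AlgebraicClosure K ≃ₐ[K] AlgebraicClosure K) → GeomPoints W K) where
  carrier := {c | c ∈ cocycles W K ∧
    (∀ v : HeightOneSpectrum (𝓞 K), LocallyTrivial W K (v.adicCompletion K) c) ∧
    ∀ v : InfinitePlace K, LocallyTrivial W K v.Completion c}
  zero_mem' := ⟨(cocycles W K).zero_mem, fun v => LocallyTrivial.zero W K _,
    fun v => LocallyTrivial.zero W K _⟩
  add_mem' := by
    rintro c c' ⟨h1, h2, h3⟩ ⟨h1', h2', h3'⟩
    exact ⟨(cocycles W K).add_mem h1 h1', fun v => (h2 v).add W (h2' v),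
      fun v => (h3 v).add W (h3' v)⟩
  neg_mem' := by
    rintro c ⟨h1, h2, h3⟩
    exact ⟨(cocycles W K).neg_mem h1, fun v => (h2 v).neg W, fun v => (h3 v).neg W⟩

/-- the `3`-Selmer group `Sel^(3)(W/K)`: Selmer cocycles modulo coboundaries -/
abbrev Sel3 : Type := selmerCocycles W K ⧸ (coboundaries W K).addSubgroupOf (selmerCocycles W K)

end

end Selmer
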