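import Pool.Agent.H15.F8.Targets
import Pool.Agent.H15.F8.Selmer

/-!
# Project MP_f8d35d_nt: second batch of module statements
-/

namespace F8

open IsDedekindDomain NumberField

/-- **R1** the naive height on `E(ℚ)`: approximate parallelogram law and Northcott property. -/
def ParaStmt : Prop := ∃ h : Pt ℚ → ℝ, (∀ x, 0 ≤ h x) ∧
  (∃ C : ℝ, ∀ x y, |h (x + y) + h (x - y) - 2 * (h x + h y)| ≤ C) ∧ Northcott h

/-- **R2** descent: a height and `#(A/3A) ≤ 3` and a point of order `3` imply that `A` is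
finite. -/
def FinStmt : Prop := ∀ (A : Type) [AddCommGroup A] (P : A), P ≠ 0 → (3 : ℕ) • P = 0 →
  (∃ h : A → ℝ, (∀ x, 0 ≤ h x) ∧
    (∃ C : ℝ, ∀ x y, |h (x + y) + h (x - y) - 2 * (h x + h y)| ≤ C) ∧ Northcott h) →
  (∃ lab : A → Fin 3, ∀ Q Q', lab Q = lab Q' → ∃ S : A, Q - Q' = (3 : ℕ) • S) → Finite A

/-- **S1** an embedding of a number field into `Om p` comes from a finite place `v`, and `Om p`
is an algebraic closure of the completion at `v`. -/
def PlaceStmt : Prop := ∀ (K : Type) [Field K] [NumberField K] (p : ℕ) [Fact p.Prime]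
  (i : K →+* Om p), ∃ (v : HeightOneSpectrum (𝓞 K)) (j : v.adicCompletion K →+* Om p),
    (∀ x : K, j (algebraMap K (v.adicCompletion K) x) = i x) ∧
    (∀ y : Om p, ∃ q : Polynomial (v.adicCompletion K), q ≠ 0 ∧ Polynomial.eval₂ j y q = 0) ∧
    ∀ g : Gp p, (∀ x : K, g (i x) = i x) → ∀ x : v.adicCompletion K, g (j x) = j x

/-- **S2** comparison of the working definition of Selmer cocycles with the Selmer group. -/
def LitStmt : Prop := ∀ [NumberField KK],
  (∃ lab : (Gam → Pt Qbar) → Fin 3, ∀ c c', IsSel HK c → IsSel HK c' → lab c = lab c' →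
    IsCob HK (fun s => c s - c' s)) →
  Finite (Selmer.Sel3 E KK) ∧ Nat.card (Selmer.Sel3 E KK) ≤ 3

end F8
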