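import Pool.Agent.H15.F8.Bound
import Pool.Agent.H15.F8.Targets2

/-!
# Project MP_f8d35d_nt: the bound for the Selmer group, second part
-/

namespace F8

theorem gen_unique {H : Subgroup Gam} {c : Gam → Pt Qbar} {δ δ' : Qbar} (h : Gen H c δ)
    (h' : Gen H c δ') (hc : ∀ s ∈ H, eta (c s) ≠ 0) : ∀ s ∈ H, s (δ / δ') = δ / δ' := by
  intro s hs
  rw [map_div₀, h.2 s hs, h'.2 s hs, mul_div_mul_left _ _ (hc s hs)]

theorem eta_ne (hEta : EtaStmt) {T : Pt Qbar} (hT : (3 : ℕ) • T = 0) : eta T ≠ 0 := by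
  intro h0
  have := (hEta Qbar om om_spec).1 T hT
  rw [h0] at this; norm_num at this

theorem gen_sub (hEta : EtaStmt) {H : Subgroup Gam} {c c' : Gam → Pt Qbar} (hc : IsSel H c)
    (hc' : IsSel H c') {δ δ' : Qbar} (h : Gen H c δ) (h' : Gen H c' δ') :
    Gen H (fun s => c s - c' s) (δ / δ') := by
  refine ⟨div_ne_zero h.1 h'.1, fun s hs => ?_⟩
  have e1 : eta (c s - c' s) * eta (c' s) = eta (c s) := by
    rw [← (hEta Qbar om om_spec).2.1 _ _ (by rw [smul_sub, hc.tor s hs, hc'.tor s hs, sub_zero])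
      (hc'.tor s hs), sub_add_cancel]
  have hne := eta_ne hEta (hc'.tor s hs)
  rw [map_div₀, h.2 s hs, h'.2 s hs, ← e1]
  field_simp [h'.1]

theorem gen_conj {H : Subgroup Gam} (hn : H.Normal) {c : Gam → Pt Qbar} {δ : Qbar}
    (h : Gen H c δ) (r : Gam) : Gen H (conj r c) (r δ) := by
  refine ⟨(map_ne_zero r).2 h.1, fun s hs => ?_⟩
  have e2 := h.2 _ (conj_mem hn r hs)
  have e3 := congrArg r e2
  rw [AlgEquiv.mul_apply, AlgEquiv.mul_apply, ← AlgEquiv.mul_apply r r⁻¹, mul_inv_cancel,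
    AlgEquiv.one_apply, map_mul] at e3
  rw [e3]
  congr 1
  unfold F8.conj
  rw [eta_pm]; rfl

/-- a real (rational) cube root of one is one, applied to norms -/
theorem norm_one_of_cube (hK : KSetupStmt) {σ : Gam} (h1 : σ om = om) (h2 : σ th = om * th)
    {x : Qbar} (hx : ∀ s ∈ HK, s x = x) :
    ∃ q : ℚ, x * σ x * σ (σ x) = (q : Qbar) := by
  refine fix_rat _ (fixed_all hK h1 h2 ?_ ?_)
  · intro s hs
    rw [map_mul, map_mul, hx s hs, sigma_fix hK hx σ s hs,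
      sigma_fix hK (sigma_fix hK hx σ) σ s hs]
  · rw [map_mul, map_mul, sigma_three hK h1 h2 hx]; ring

/-- if `σc - c` is an invariant class then it is trivial -/
theorem claimB (hEta : EtaStmt) (hK : KSetupStmt) (h90 : H90Stmt) (hN : Norm949Stmt)
    (hzero : ∀ ψ : Gam → ZMod 3, IsPsi HK ψ → PsiLoc HK ψ → ∀ s ∈ HK, ψ s = 0)
    (hinvgen : ∀ c : Gam → Pt Qbar, IsSel HK c →
      (∀ r : Gam, IsCob HK (fun s => conj r c s - c s)) →
      ∃ δ : Qbar, Gen HK c δ ∧ ∃ i : ℕ, i < 3 ∧ ∃ t : ℚ, t ≠ 0 ∧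
        δ ^ 3 = ((949 ^ i * t ^ 3 : ℚ) : Qbar))
    {σ : Gam} (h1 : σ om = om) (h2 : σ th = om * th) {c : Gam → Pt Qbar} (hc : IsSel HK c)
    (hinv : ∀ r : Gam, IsCob HK
      (fun s => conj r (fun s => conj σ c s - c s) s - (conj σ c s - c s))) :
    IsCob HK (fun s => conj σ c s - c s) := by
  have hn := hK.2.2.1
  obtain ⟨δ0, hg0⟩ := exists_gen h90 hEta hc
  have hc1 : IsSel HK (fun s => conj σ c s - c s) := (hc.conj hn σ).sub hc
  have hg1 : Gen HK (fun s => conj σ c s - c s) (σ δ0 / δ0) :=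
    gen_sub hEta (hc.conj hn σ) hc (gen_conj hn hg0 σ) hg0
  obtain ⟨δ', hg', i, hi, t, ht, hδ'⟩ := hinvgen _ hc1 hinv
  obtain ⟨u, hu⟩ : ∃ u : Qbar, u = (σ δ0 / δ0) / δ' := ⟨_, rfl⟩
  have hufix : ∀ s ∈ HK, s u = u := by
    rw [hu]
    exact gen_unique hg1 hg' (fun s hs => eta_ne hEta (hc1.tor s hs))
  have hu0 : u ≠ 0 := by
    rw [hu]; exact div_ne_zero hg1.1 hg'.1
  -- the norm of `u t`
  obtain ⟨q, hq⟩ := norm_one_of_cube hK h1 h2 hufix
  have hd := gen_cube hEta hc hg0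
  have n1 : δ0 ^ 3 ≠ 0 := pow_ne_zero _ hg0.1
  have e1 : u ^ 3 * ((949 ^ i * t ^ 3 : ℚ) : Qbar) = σ (δ0 ^ 3) / δ0 ^ 3 := by
    rw [← hδ', hu, div_pow, div_pow, map_pow, div_mul_cancel₀ _ (pow_ne_zero _ hg'.1)]
  have e2 : (σ u) ^ 3 * ((949 ^ i * t ^ 3 : ℚ) : Qbar) = σ (σ (δ0 ^ 3)) / σ (δ0 ^ 3) := by
    have := congrArg σ e1
    rw [map_mul, map_pow, map_ratCast, map_div₀] at this
    exact this
  have e3 : (σ (σ u)) ^ 3 * ((949 ^ i * t ^ 3 : ℚ) : Qbar) =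
      σ (σ (σ (δ0 ^ 3))) / σ (σ (δ0 ^ 3)) := by
    have := congrArg σ e2
    rw [map_mul, map_pow, map_ratCast, map_div₀] at this
    exact this
  have e4 : (u * σ u * σ (σ u)) ^ 3 * ((949 ^ i * t ^ 3 : ℚ) : Qbar) ^ 3 = 1 := by
    have e5 : (u * σ u * σ (σ u)) ^ 3 * ((949 ^ i * t ^ 3 : ℚ) : Qbar) ^ 3 =
      (u ^ 3 * ((949 ^ i * t ^ 3 : ℚ) : Qbar)) * ((σ u) ^ 3 * ((949 ^ i * t ^ 3 : ℚ) : Qbar)) *
      ((σ (σ u)) ^ 3 * ((949 ^ i * t ^ 3 : ℚ) : Qbar)) := by ring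
    rw [e5, e1, e2, e3, sigma_three hK h1 h2 hd]
    have n2 : σ (δ0 ^ 3) ≠ 0 := (map_ne_zero σ).2 n1
    have n3 : σ (σ (δ0 ^ 3)) ≠ 0 := (map_ne_zero σ).2 n2
    generalize σ (σ (δ0 ^ 3)) = C at n3 ⊢
    generalize σ (δ0 ^ 3) = B at n2 ⊢
    generalize δ0 ^ 3 = A' at n1 ⊢
    field_simp
  rw [hq] at e4
  have e6 : (q * (949 ^ i * t ^ 3)) ^ 3 = 1 := by
    have : ((q * (949 ^ i * t ^ 3) : ℚ) : Qbar) ^ 3 = 1 := by
      rw [← e4]; push_cast; ring
    exact_mod_cast this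
  have e7 : q * (949 ^ i * t ^ 3) = 1 := cube_mem_pow _ e6
  -- conclusion
  have hi0 : i = 0 := by
    have h949 : ∀ w : Qbar, (∀ s ∈ HK, s w = w) → w * σ w * σ (σ w) ≠ 949 :=
      fun w hw => hN σ h1 h2 w ((mem_KK_iff w).2 hw)
    have htfix : ∀ r : Gam, r (t : Qbar) = t := fun r => map_ratCast r t
    have hut0 : u * t ≠ 0 := mul_ne_zero hu0 (by exact_mod_cast ht)
    have hNut : (u * t) * σ (u * t) * σ (σ (u * t)) = ((q * t ^ 3 : ℚ) : Qbar) := by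
      rw [map_mul, htfix, map_mul, htfix]
      push_cast
      rw [← hq]; ring
    interval_cases i
    · rfl
    · exfalso
      apply h949 (u * t)⁻¹
      · intro s hs; rw [map_inv₀, map_mul, hufix s hs, htfix]
      · rw [map_inv₀, map_inv₀, ← mul_inv, ← mul_inv, hNut]
        have : (q * t ^ 3)⁻¹ = 949 :=
          inv_eq_of_mul_eq_one_right (by linear_combination e7)
        rw [← Rat.cast_inv, this]; norm_num
    · exfalso
      apply h949 (949 * (u * t))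
      · intro s hs; rw [map_mul, map_mul, hufix s hs, htfix]; simp [map_ofNat]
      · have e9 : σ (949 * (u * t)) = 949 * σ (u * t) := by rw [map_mul, map_ofNat]
        have e10 : σ (949 * σ (u * t)) = 949 * σ (σ (u * t)) := by rw [map_mul, map_ofNat]
        rw [e9, e10]
        have e8 : (949 : Qbar) * (u * t) * (949 * σ (u * t)) * (949 * σ (σ (u * t))) =
          949 ^ 3 * ((u * t) * σ (u * t) * σ (σ (u * t))) := by ring
        rw [e8, hNut]
        have : 949 ^ 3 * (q * t ^ 3) = (949 : ℚ) := by linear_combination 949 * e7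
        exact_mod_cast congrArg (Rat.cast : ℚ → Qbar) this
  subst hi0
  refine claim1 hEta hzero hc1 hg'.1 hg'.2 (t := (t : Qbar)) (fun s _ => map_ratCast s t) ?_
  rw [hδ']; push_cast; ring

/-- every Selmer class over `KK` is invariant -/
theorem all_invariant (hEta : EtaStmt) (hK : KSetupStmt) (h90 : H90Stmt) (hN : Norm949Stmt)
    (hzero : ∀ ψ : Gam → ZMod 3, IsPsi HK ψ → PsiLoc HK ψ → ∀ s ∈ HK, ψ s = 0)
    (hinvgen : ∀ c : Gam → Pt Qbar, IsSel HK c →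
      (∀ r : Gam, IsCob HK (fun s => conj r c s - c s)) →
      ∃ δ : Qbar, Gen HK c δ ∧ ∃ i : ℕ, i < 3 ∧ ∃ t : ℚ, t ≠ 0 ∧
        δ ^ 3 = ((949 ^ i * t ^ 3 : ℚ) : Qbar)) {c : Gam → Pt Qbar} (hc : IsSel HK c) :
    ∀ r : Gam, IsCob HK (fun s => conj r c s - c s) := by
  have hn := hK.2.2.1
  obtain ⟨σ, h1, h2⟩ := hK.2.2.2.1
  have hσ3 := sigma_cube hK h1 h2
  have c1 : IsSel HK (fun s => conj σ c s - c s) := (hc.conj hn σ).sub hc
  have c2 : IsSel HK (fun s => conj σ (fun s => conj σ c s - c s) s - (conj σ c s - c s)) :=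
    (c1.conj hn σ).sub c1
  -- the third difference is a coboundary
  have h3 : IsCob HK (fun s => conj σ (fun s => conj σ (fun s => conj σ c s - c s) s -
      (conj σ c s - c s)) s - (conj σ (fun s => conj σ c s - c s) s - (conj σ c s - c s))) := by
    refine (cob_inner hc hσ3).congr (fun s hs => ?_)
    simp only [conj_sub, conj_conj]
    have e1 : σ * (σ * σ) = σ ^ 3 := by rw [pow_succ, pow_succ, pow_one, mul_assoc]
    rw [e1]
    have t1 := (hc.conj hn σ).tor s hs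
    have t2 := (hc.conj hn (σ * σ)).tor s hs
    have key : conj (σ ^ 3) c s - conj (σ * σ) c s - (conj (σ * σ) c s - conj σ c s) -
        (conj (σ * σ) c s - conj σ c s - (conj σ c s - c s)) =
        conj (σ ^ 3) c s - c s - (3 : ℕ) • conj (σ * σ) c s + (3 : ℕ) • conj σ c s := by
      simp only [show (3 : ℕ) = 2 + 1 from rfl, add_nsmul, two_nsmul, one_nsmul]
      abel
    rw [key, t1, t2, sub_zero, add_zero]
  have i2 := inv_of_sigma hK h1 h2 c2 h3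
  have b2 := claimB hEta hK h90 hN hzero hinvgen h1 h2 c1 i2
  have i1 := inv_of_sigma hK h1 h2 c1 b2
  have b1 := claimB hEta hK h90 hN hzero hinvgen h1 h2 hc i1
  exact inv_of_sigma hK h1 h2 hc b1

/-- abstract form of the bound: labels in `Fin 3` -/
theorem exists_label (hEta : EtaStmt) {H : Subgroup Gam}
    (hzero : ∀ ψ : Gam → ZMod 3, IsPsi H ψ → PsiLoc H ψ → ∀ s ∈ H, ψ s = 0)
    (hgen : ∀ c : Gam → Pt Qbar, IsSel H c →
      ∃ δ : Qbar, Gen H c δ ∧ ∃ i : ℕ, i < 3 ∧ ∃ t : ℚ, t ≠ 0 ∧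
        δ ^ 3 = ((949 ^ i * t ^ 3 : ℚ) : Qbar)) :
    ∃ lab : (Gam → Pt Qbar) → Fin 3, ∀ c c', IsSel H c → IsSel H c' → lab c = lab c' →
      IsCob H (fun s => c s - c' s) := by
  classical
  choose! δ hδ i hi t ht h3 using hgen
  refine ⟨fun c => if h : IsSel H c then ⟨i c, hi c h⟩ else 0, fun c c' hc hc' hl => ?_⟩
  simp only [hc, hc', dif_pos, Fin.mk.injEq] at hl
  have hs := hc.sub hc'
  have hg := gen_sub hEta hc hc' (hδ c hc) (hδ c' hc')
  refine claim1 hEta hzero hs hg.1 hg.2 (t := ((t c / t c' : ℚ) : Qbar))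
    (fun s _ => map_ratCast s _) ?_
  rw [div_pow, h3 c hc, h3 c' hc', hl]
  have h1 : (t c' : Qbar) ≠ 0 := by exact_mod_cast ht c' hc'
  push_cast
  field_simp

end F8
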