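import Pool.Agent.H15.F8.Coh

/-!
# Project MP_f8d35d_nt: classes with trivial `D` are trivial
-/

namespace F8

/-! ### multiples of `P` -/

section mult

variable {A : Type} [Field A] [DecidableEq A] [Algebra ℚ A]

theorem mod_smul_PT (n : ℕ) : n • (PT : Pt A) = (n % 3) • (PT : Pt A) := by
  have h : (3 * (n / 3)) • (PT : Pt A) = 0 := by
    rw [mul_comm, mul_nsmul', three_PT, smul_zero]
  conv_lhs => rw [← Nat.div_add_mod n 3]
  rw [add_nsmul, h, zero_add]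

theorem val_smul_PT_zero {x : ZMod 3} (h : x.val • (PT : Pt A) = 0) : x = 0 := by
  have h3 := three_PT (A := A)
  have hne := PT_ne_zero (A := A)
  have hx := ZMod.val_lt x
  by_contra hx0
  have h0 : x.val ≠ 0 := fun h0 => hx0 ((ZMod.val_eq_zero x).1 h0)
  have : x.val = 1 ∨ x.val = 2 := by omega
  rcases this with h1 | h1
  · rw [h1, one_nsmul] at h; exact hne h
  · rw [h1] at h
    apply hne
    have h4 : (3 : ℕ) • (PT : Pt A) = (2 : ℕ) • (PT : Pt A) + PT := by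
      rw [show (3 : ℕ) = 2 + 1 from rfl, add_nsmul, one_nsmul]
    rw [h3, h, zero_add] at h4
    exact h4.symm

theorem val_add_smul_PT (x y : ZMod 3) :
    (x + y).val • (PT : Pt A) = x.val • (PT : Pt A) + y.val • (PT : Pt A) := by
  rw [ZMod.val_add, ← mod_smul_PT, add_nsmul]

theorem val_smul_PT_inj {x y : ZMod 3} (h : x.val • (PT : Pt A) = y.val • (PT : Pt A)) :
    x = y := by
  have h1 := val_add_smul_PT (A := A) (x - y) y
  rw [sub_add_cancel, h] at h1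
  have h2 : (x - y).val • (PT : Pt A) = 0 := by
    have := h1.symm
    rwa [add_eq_right] at this
  exact sub_eq_zero.1 (val_smul_PT_zero h2)

theorem exists_val_smul {R : Pt A} (h : R = 0 ∨ R = PT ∨ R = -PT) :
    ∃ x : ZMod 3, R = x.val • (PT : Pt A) := by
  rcases h with h | h | h
  · exact ⟨0, by rw [h, ZMod.val_zero, zero_nsmul]⟩
  · exact ⟨1, by rw [h, ZMod.val_one, one_nsmul]⟩
  · exact ⟨2, by
      rw [h]
      change -PT = (2 : ℕ) • (PT : Pt A)
      rw [two_nsmul, PT_add_PT]⟩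

end mult

/-! ### characters -/

theorem IsPsi.sub {H : Subgroup Gam} {ψ ψ' : Gam → ZMod 3} (h : IsPsi H ψ) (h' : IsPsi H ψ') :
    IsPsi H (fun s => ψ s - ψ' s) where
  hom := fun s hs t ht => by rw [h.hom s hs t ht, h'.hom s hs t ht]; ring
  cont := by
    obtain ⟨L, hL, h1⟩ := h.cont
    obtain ⟨M, hM, h2⟩ := h'.cont
    obtain ⟨h3, h4⟩ := cont_inf hL hM
    exact ⟨L ⊔ M, h3, fun s hs hs2 => by
      rw [h1 s hs (h4 s hs2).1, h2 s hs (h4 s hs2).2, sub_zero]⟩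

theorem PsiLoc.sub {H : Subgroup Gam} {ψ ψ' : Gam → ZMod 3} (h : PsiLoc H ψ)
    (h' : PsiLoc H ψ') : PsiLoc H (fun s => ψ s - ψ' s) := by
  intro p _ i
  obtain ⟨R, hR⟩ := h p i
  obtain ⟨R', hR'⟩ := h' p i
  refine ⟨R - R', fun g s hs hr => ?_⟩
  have h1 := val_add_smul_PT (A := Om p) (ψ s - ψ' s) (ψ' s)
  rw [sub_add_cancel, hR g s hs hr, hR' g s hs hr] at h1
  rw [map_sub]
  have h2 : (ψ s - ψ' s).val • (PT : Pt (Om p)) =
      (pm (g : Om p →+* Om p) R - R) - (pm (g : Om p →+* Om p) R' - R') := by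
    rw [h1]; abel
  rw [h2]; abel

/-- conjugate character -/
noncomputable def psiConj (r : Gam) (ψ : Gam → ZMod 3) : Gam → ZMod 3 := fun s => ψ (r⁻¹ * s * r)

theorem IsPsi.conj {H : Subgroup Gam} (hn : H.Normal) {ψ : Gam → ZMod 3} (h : IsPsi H ψ)
    (r : Gam) : IsPsi H (psiConj r ψ) where
  hom := fun s hs t ht => by
    unfold psiConj
    have e : r⁻¹ * (s * t) * r = (r⁻¹ * s * r) * (r⁻¹ * t * r) := by group
    rw [e, h.hom _ (conj_mem hn r hs) _ (conj_mem hn r ht)]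
  cont := by
    obtain ⟨L, hL, h1⟩ := h.cont
    refine ⟨L.map (r : Qbar →ₐ[ℚ] Qbar), ?_, fun s hs hs2 => ?_⟩
    · exact Module.Finite.equiv (IntermediateField.intermediateFieldMap r L).toLinearEquiv
    · apply h1 _ (conj_mem hn r hs)
      rw [IntermediateField.mem_fixingSubgroup_iff] at hs2 ⊢
      intro x hx
      have h2 := hs2 (r x) ⟨x, hx, rfl⟩
      rw [AlgEquiv.mul_apply, AlgEquiv.mul_apply, h2, ← AlgEquiv.mul_apply, inv_mul_cancel,
        AlgEquiv.one_apply]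

theorem PsiLoc.conj {H : Subgroup Gam} (hn : H.Normal) {ψ : Gam → ZMod 3} (h : PsiLoc H ψ)
    (r : Gam) : PsiLoc H (psiConj r ψ) := by
  intro p _ i
  obtain ⟨R, hR⟩ := h p (i.comp (r : Qbar →+* Qbar))
  exact ⟨R, fun g s hs hr => hR g _ (conj_mem hn r hs) (hr.conj r)⟩

theorem psi_one {H : Subgroup Gam} {ψ : Gam → ZMod 3} (h : IsPsi H ψ) : ψ 1 = 0 := by
  have := h.hom 1 H.one_mem 1 H.one_mem
  rw [mul_one] at this
  have h2 : ∀ x : ZMod 3, x = x + x → x = 0 := by decide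
  exact h2 _ this

theorem psi_inner {H : Subgroup Gam} {ψ : Gam → ZMod 3} (h : IsPsi H ψ) {r s : Gam}
    (hr : r ∈ H) (hs : s ∈ H) : ψ (r⁻¹ * s * r) = ψ s := by
  have h1 := h.hom r hr r⁻¹ (H.inv_mem hr)
  rw [mul_inv_cancel, psi_one h] at h1
  rw [h.hom _ (H.mul_mem (H.inv_mem hr) hs) _ hr, h.hom _ (H.inv_mem hr) _ hs]
  linear_combination -h1

theorem psi_inv_all (hK : KSetupStmt) {σ : Gam} (h1 : σ om = om) (h2 : σ th = om * th)
    {ψ : Gam → ZMod 3} (hψ : IsPsi HK ψ) (h : ∀ s ∈ HK, ψ (σ⁻¹ * s * σ) = ψ s) :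
    ∀ r : Gam, ∀ s ∈ HK, ψ (r⁻¹ * s * r) = ψ s := by
  have hn := hK.2.2.1
  have hj : ∀ j : ℕ, ∀ s ∈ HK, ψ ((σ ^ j)⁻¹ * s * σ ^ j) = ψ s := by
    intro j
    induction j with
    | zero => intro s hs; simp
    | succ j ih =>
      intro s hs
      have e : (σ ^ (j + 1))⁻¹ * s * σ ^ (j + 1) =
          σ⁻¹ * ((σ ^ j)⁻¹ * s * σ ^ j) * σ := by
        rw [pow_succ]; group
      rw [e, h _ (conj_mem hn _ hs), ih s hs]
  intro r s hs
  obtain ⟨j, _, g, hg, rfl⟩ := hK.2.2.2.2 σ h1 h2 r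
  have e : (σ ^ j * g)⁻¹ * s * (σ ^ j * g) = g⁻¹ * ((σ ^ j)⁻¹ * s * σ ^ j) * g := by group
  rw [e, psi_inner hψ hg (conj_mem hn _ hs), hj j s hs]

/-- `σ ^ 3` lies in `HK` -/
theorem sigma_cube (hK : KSetupStmt) {σ : Gam} (h1 : σ om = om) (h2 : σ th = om * th) :
    σ ^ 3 ∈ HK := by
  have e1 : (σ ^ 3) om = om := by
    rw [pow_succ, pow_succ, pow_one, AlgEquiv.mul_apply, AlgEquiv.mul_apply, h1, h1, h1]
  refine (hK.1.mem _ e1).2 ?_
  rw [pow_succ, pow_succ, pow_one, AlgEquiv.mul_apply, AlgEquiv.mul_apply, h2, map_mul, h1, h2,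
    map_mul, map_mul, h1, h2]
  linear_combination th * om_cube

/-- all local characters of `HK` vanish, if the invariant ones do -/
theorem psi_nil (hK : KSetupStmt)
    (hmain : ∀ ψ : Gam → ZMod 3, IsPsi HK ψ → PsiLoc HK ψ →
      (∀ r : Gam, ∀ s ∈ HK, ψ (r⁻¹ * s * r) = ψ s) → ∀ s ∈ HK, ψ s = 0)
    {ψ : Gam → ZMod 3} (hψ : IsPsi HK ψ) (hloc : PsiLoc HK ψ) : ∀ s ∈ HK, ψ s = 0 := by
  have hn := hK.2.2.1
  obtain ⟨σ, h1, h2⟩ := hK.2.2.2.1
  have hσ3 := sigma_cube hK h1 h2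
  set ψ1 : Gam → ZMod 3 := fun s => psiConj σ ψ s - ψ s with e1
  set ψ2 : Gam → ZMod 3 := fun s => psiConj σ ψ1 s - ψ1 s with e2
  have p1 : IsPsi HK ψ1 := (hψ.conj hn σ).sub hψ
  have p2 : IsPsi HK ψ2 := (p1.conj hn σ).sub p1
  have l1 : PsiLoc HK ψ1 := (hloc.conj hn σ).sub hloc
  have l2 : PsiLoc HK ψ2 := (l1.conj hn σ).sub l1
  have inv2 : ∀ s ∈ HK, ψ2 (σ⁻¹ * s * σ) = ψ2 s := by
    intro s hs
    have a3 : ψ (σ⁻¹ * (σ⁻¹ * (σ⁻¹ * s * σ) * σ) * σ) = ψ s := by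
      have := psi_inner hψ hσ3 hs
      have e : (σ ^ 3)⁻¹ * s * σ ^ 3 = σ⁻¹ * (σ⁻¹ * (σ⁻¹ * s * σ) * σ) * σ := by
        simp only [pow_succ, pow_zero, one_mul]; group
      rw [← e]; exact this
    simp only [e2, e1, psiConj]
    rw [a3]
    have h3 : ∀ x y z : ZMod 3, x - y - (y - z) - (y - z - (z - x)) = 0 := by decide
    exact sub_eq_zero.1 (h3 _ _ _)
  have z2 := hmain ψ2 p2 l2 (psi_inv_all hK h1 h2 p2 inv2)
  have z1 := hmain ψ1 p1 l1 (psi_inv_all hK h1 h2 p1 (fun s hs => by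
    have := z2 s hs
    exact sub_eq_zero.1 this))
  exact hmain ψ hψ hloc (psi_inv_all hK h1 h2 hψ (fun s hs => by
    have := z1 s hs
    exact sub_eq_zero.1 this))

/-! ### coboundaries are Selmer -/

theorem isSel_cob {H : Subgroup Gam} {T : Pt Qbar} (hT : (3 : ℕ) • T = 0) :
    IsSel H (fun s => act s T - T) where
  tor := fun s _ => by rw [smul_sub, ← map_nsmul, hT, map_zero, sub_zero]
  coc := fun s _ t _ => by
    change act (s * t) T - T = act s T - T + act s (act t T - T)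
    rw [act_mul, map_sub]; abel
  cont := by
    obtain ⟨L, hL, h⟩ := exists_fix T
    exact ⟨L, hL, fun s _ hs => by rw [h s hs, sub_self]⟩
  loc := fun p _ i => ⟨pm i T, fun g s _ hr => by
    rw [map_sub, pm_res hr]⟩

theorem eta_nsmul (hEta : EtaStmt) {T : Pt Qbar} (hT : (3 : ℕ) • T = 0) (n : ℕ) :
    eta (n • T) = eta T ^ n := by
  induction n with
  | zero => rw [zero_nsmul, eta_zero, pow_zero]
  | succ n ih =>
    rw [add_nsmul, one_nsmul, pow_succ, ← ih]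
    exact (hEta Qbar om om_spec).2.1 _ _ (by rw [smul_comm, hT, smul_zero]) hT

/-- a Selmer class with trivial `D` is trivial -/
theorem claim1 (hEta : EtaStmt) {H : Subgroup Gam}
    (hzero : ∀ ψ : Gam → ZMod 3, IsPsi H ψ → PsiLoc H ψ → ∀ s ∈ H, ψ s = 0)
    {c : Gam → Pt Qbar} (hc : IsSel H c) {δ t : Qbar} (hδ : δ ≠ 0)
    (hgen : ∀ s ∈ H, s δ = eta (c s) * δ) (ht : ∀ s ∈ H, s t = t) (h3 : δ ^ 3 = t ^ 3) :
    IsCob H c := by
  have ht0 : t ≠ 0 := by
    rintro rfl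
    apply hδ
    have : δ ^ 3 = 0 := by rw [h3]; simp
    exact pow_eq_zero_iff (by norm_num) |>.1 this
  obtain ⟨n, hn⟩ := cube_root_of_one (x := δ / t) (by
    rw [div_pow, h3]; exact div_self (pow_ne_zero _ ht0))
  have hδt : δ = om ^ n * t := by
    rw [← hn]; exact (div_mul_cancel₀ _ ht0).symm
  obtain ⟨d, hd⟩ := IsAlgClosed.exists_pow_nat_eq (25631 : Qbar) (n := 3) (by norm_num)
  obtain ⟨T0, hT0, hT1, -⟩ := (hEta Qbar om om_spec).2.2.2.2.2 d hd
  set T : Pt Qbar := n • T0 with hTdef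
  have hT3 : (3 : ℕ) • T = 0 := by rw [hTdef, smul_comm, hT0, smul_zero]
  have hTeta : eta T = om ^ n := by rw [hTdef, eta_nsmul hEta hT0, hT1]
  have hc' : IsSel H (fun s => c s - (act s T - T)) := hc.sub (isSel_cob hT3)
  have key : ∀ s ∈ H, ∃ x : ZMod 3, c s - (act s T - T) = x.val • (PT : Pt Qbar) := by
    intro s hs
    apply exists_val_smul
    apply (hEta Qbar om om_spec).2.2.1 _ (hc'.tor s hs)
    have h1 : eta ((c s - (act s T - T)) + act s T) = eta (c s + T) := by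
      congr 1; abel
    rw [(hEta Qbar om om_spec).2.1 _ _ (hc'.tor s hs) (by rw [← map_nsmul, hT3, map_zero]),
      (hEta Qbar om om_spec).2.1 _ _ (hc.tor s hs) hT3, eta_pm, hTeta] at h1
    have h2 := hgen s hs
    rw [hδt, map_mul, ht s hs] at h2
    have h4 : s (om ^ n) = eta (c s) * om ^ n := by
      apply mul_right_cancel₀ ht0
      rw [h2]; ring
    have h5 : (s : Qbar →+* Qbar) (om ^ n) = s (om ^ n) := rfl
    rw [h5, h4] at h1
    have h6 : eta (c s) * om ^ n ≠ 0 := by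
      rw [← h4]
      exact (map_ne_zero s).2 (pow_ne_zero _ om_ne_zero)
    exact mul_right_cancel₀ h6 (h1.trans (one_mul _).symm)
  classical
  choose! ψ hψ using key
  have hpsi : IsPsi H ψ := {
    hom := fun s hs t ht => by
      apply val_smul_PT_inj (A := Qbar)
      rw [val_add_smul_PT, ← hψ s hs, ← hψ t ht, ← hψ _ (H.mul_mem hs ht)]
      have h1 := hc'.coc s hs t ht
      rw [h1]
      congr 1
      rw [hψ t ht, map_nsmul, pm_PT]
    cont := by
      obtain ⟨L, hL, h⟩ := hc'.cont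
      refine ⟨L, hL, fun s hs hs2 => ?_⟩
      have h1 := h s hs hs2
      rw [hψ s hs] at h1
      exact val_smul_PT_zero h1 }
  have hloc : PsiLoc H ψ := by
    intro p _ i
    obtain ⟨R, hR⟩ := hc'.loc p i
    refine ⟨R, fun g s hs hr => ?_⟩
    rw [← hR g s hs hr, hψ s hs, map_nsmul, pm_PT]
  have hz := hzero ψ hpsi hloc
  refine ⟨T, hT3, fun s hs => ?_⟩
  have h1 := hψ s hs
  rw [hz s hs, ZMod.val_zero, zero_nsmul] at h1
  exact sub_eq_zero.1 h1

end F8
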