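import Pool.Agent.H15.F8.Claim1

/-!
# Project MP_f8d35d_nt: invariant classes
-/

namespace F8

theorem exists_emb (p : ℕ) [Fact p.Prime] : Nonempty (Qbar →+* Om p) :=
  ⟨(IsAlgClosed.lift (R := ℚ) (S := Qbar) (M := Om p) : Qbar →ₐ[ℚ] Om p).toRingHom⟩

theorem norm_nat_eq {p : ℕ} [Fact p.Prime] (n : ℕ) : ‖(n : Om p)‖ = ‖(n : ℚ_[p])‖ := by
  rw [← map_natCast (algebraMap ℚ_[p] (Om p)) n]
  exact PadicAlgCl.norm_extends p n

theorem norm_nat_one {p : ℕ} [Fact p.Prime] {n : ℕ} (h : ¬ p ∣ n) : ‖(n : Om p)‖ = 1 := by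
  rw [norm_nat_eq, Padic.norm_natCast_eq_one_iff]
  exact ((Nat.Prime.coprime_iff_not_dvd Fact.out).2 h)

theorem norm_rat_eq {p : ℕ} [Fact p.Prime] (i : Qbar →+* Om p) {q : ℚ} (hq : q ≠ 0) :
    ‖i (q : Qbar)‖ = (p : ℝ) ^ (-padicValRat p q) := by
  have h1 : i (q : Qbar) = algebraMap ℚ_[p] (Om p) (q : ℚ_[p]) := by
    rw [map_ratCast, map_ratCast]
  rw [h1]
  have h2 := PadicAlgCl.norm_extends p (q : ℚ_[p])
  rw [h2, Padic.eq_padicNorm, padicNorm.eq_zpow_of_nonzero hq]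
  push_cast
  rfl

/-- Kummer generators -/
def Gen (H : Subgroup Gam) (c : Gam → Pt Qbar) (δ : Qbar) : Prop :=
  δ ≠ 0 ∧ ∀ s ∈ H, s δ = eta (c s) * δ

theorem exists_gen (h90 : H90Stmt) (hEta : EtaStmt) {H : Subgroup Gam} {c : Gam → Pt Qbar}
    (hc : IsSel H c) : ∃ δ : Qbar, Gen H c δ := by
  obtain ⟨δ, hδ, h⟩ := h90 H (fun s => eta (c s)) (by
    intro s hs h0
    have := (hEta Qbar om om_spec).1 _ (hc.tor s hs)
    rw [h0] at this
    norm_num at this) (by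
    intro s hs t ht
    rw [hc.coc s hs t ht, (hEta Qbar om om_spec).2.1 _ _ (hc.tor s hs) (by
      rw [← map_nsmul, hc.tor t ht, map_zero]), eta_pm]
    rfl) (by
    obtain ⟨L, hL, h⟩ := hc.cont
    exact ⟨L, hL, fun s hs hs2 => by rw [h s hs hs2, eta_zero]⟩)
  exact ⟨δ, hδ, h⟩

theorem gen_cube {H : Subgroup Gam} (hEta : EtaStmt) {c : Gam → Pt Qbar} (hc : IsSel H c)
    {δ : Qbar} (hg : Gen H c δ) : ∀ s ∈ H, s (δ ^ 3) = δ ^ 3 := by
  intro s hs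
  rw [map_pow, hg.2 s hs, mul_pow, (hEta Qbar om om_spec).1 _ (hc.tor s hs), one_mul]

/-- local data at an embedding -/
theorem local_data {H : Subgroup Gam} {θ : Qbar} (hS : Setup H θ) {c : Gam → Pt Qbar}
    (hc : IsSel H c) {δ : Qbar} (hg : Gen H c δ) {p : ℕ} [Fact p.Prime] (i : Qbar →+* Om p) :
    ∃ R : Pt (Om p), ∀ g : Gp p, (∀ a ∈ FF i θ, g a = a) →
      (3 : ℕ) • (pm (g : Om p →+* Om p) R - R) = 0 ∧
      g (i δ) = eta (pm (g : Om p →+* Om p) R - R) * i δ := by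
  obtain ⟨R, hR⟩ := hc.loc p i
  refine ⟨R, fun g hgF => ?_⟩
  obtain ⟨s, hs⟩ := exists_res i g
  have h1 : s om = om := (res_om hs).1 (hgF _ (om_mem_FF i θ))
  have h2 : s θ = θ := (res_eq hs θ θ).1 (hgF _ (th_mem_FF i θ))
  have h3 : s ∈ H := (hS.mem s h1).2 h2
  rw [← hR g s h3 hs]
  refine ⟨by rw [← map_nsmul, hc.tor s h3, map_zero], ?_⟩
  rw [eta_pm, hs δ, hg.2 s h3, map_mul]

theorem om_local {p : ℕ} [Fact p.Prime] (i : Qbar →+* Om p) : (i om) ^ 2 + i om + 1 = 0 := by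
  have := congrArg i om_spec
  simpa using this

theorem val_div {H : Subgroup Gam} {θ : Qbar} (hI1 : I1Stmt) (hS : Setup H θ) (hV : VStmt θ)
    {c : Gam → Pt Qbar} (hc : IsSel H c) {δ : Qbar} (hg : Gen H c δ) {q : ℚ}
    (hq : δ ^ 3 = (q : Qbar)) {p : ℕ} (hp : p.Prime) (h13 : p ≠ 13) (h73 : p ≠ 73)
    (h19 : p ≠ 19) : (3 : ℤ) ∣ padicValRat p q := by
  have : Fact p.Prime := ⟨hp⟩
  obtain ⟨i⟩ := exists_emb p
  obtain ⟨R, hR⟩ := local_data hS hc hg i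
  have h949 : ‖(949 : Om p)‖ = 1 := by
    have h : ¬ p ∣ 949 := by
      intro hd
      have h1 : p ∣ 13 * 73 := by norm_num; exact hd
      rcases (Nat.Prime.dvd_mul hp).1 h1 with h2 | h2
      · exact h13 ((Nat.prime_dvd_prime_iff_eq hp (by norm_num)).1 h2)
      · exact h73 ((Nat.prime_dvd_prime_iff_eq hp (by norm_num)).1 h2)
    have := norm_nat_one h
    exact_mod_cast this
  obtain ⟨t, ht, ht0, hnorm⟩ := hI1 p h949 (FF i θ) (i om) (om_mem_FF i θ) (om_local i) (i δ) R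
    ((map_ne_zero i).2 hg.1) hR
  obtain ⟨m, hm⟩ := hV p h13 h73 h19 i t ht ht0
  have hq0 : q ≠ 0 := by
    rintro rfl
    apply hg.1
    have : δ ^ 3 = 0 := by rw [hq]; simp
    exact pow_eq_zero_iff (by norm_num) |>.1 this
  have h1 : ‖i δ‖ ^ 3 = (p : ℝ) ^ (-padicValRat p q) := by
    rw [← norm_pow, ← map_pow, hq, norm_rat_eq i hq0]
  have h2 : (p : ℝ) ^ (3 * m) = (p : ℝ) ^ (2 * (-padicValRat p q)) := by
    rw [mul_comm 3 m, zpow_mul, ← hm, mul_comm 2, zpow_mul, ← h1, hnorm]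
    norm_cast
    ring
  have hp1 : (1 : ℝ) < p := by exact_mod_cast hp.one_lt
  have h3 := (zpow_right_injective₀ (by linarith) hp1.ne') h2
  omega

theorem unit_exponents {q t : ℚ} {i j m : ℕ} (hm : m < 3) (ht : t ≠ 0)
    (h : q = 13 ^ i * 73 ^ j * 19 ^ m * t ^ 3) (hv : (3 : ℤ) ∣ padicValRat 19 q) : m = 0 := by
  have : Fact (Nat.Prime 19) := ⟨by norm_num⟩
  have h13 : padicValRat 19 (13 : ℚ) = 0 := by
    have : padicValRat 19 ((13 : ℕ) : ℚ) = 0 := by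
      rw [padicValRat.of_nat, padicValNat.eq_zero_of_not_dvd (by norm_num)]; rfl
    exact_mod_cast this
  have h73 : padicValRat 19 (73 : ℚ) = 0 := by
    have : padicValRat 19 ((73 : ℕ) : ℚ) = 0 := by
      rw [padicValRat.of_nat, padicValNat.eq_zero_of_not_dvd (by norm_num)]; rfl
    exact_mod_cast this
  have h19 : padicValRat 19 (19 : ℚ) = 1 := by
    have := padicValRat.self (p := 19) (by norm_num)
    exact_mod_cast this
  rw [h, padicValRat.mul (by positivity) (pow_ne_zero _ ht),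
    padicValRat.mul (by positivity) (by positivity), padicValRat.mul (by positivity) (by positivity),
    padicValRat.pow, padicValRat.pow, padicValRat.pow,
    padicValRat.pow, h13, h73, h19] at hv
  push_cast at hv
  omega

/-- the local analysis at `19` -/
theorem at19 {H : Subgroup Gam} {θ : Qbar} (hI19 : I19Stmt) (hKum : KumStmt) (hOm : OmStmt)
    (hS : Setup H θ) {c : Gam → Pt Qbar} (hc : IsSel H c) {δ : Qbar} (hg : Gen H c δ)
    {i j m : ℕ} {t : ℚ} (ht : t ≠ 0)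
    (h : δ ^ 3 = ((13 ^ i * 73 ^ j * 19 ^ m * t ^ 3 : ℚ) : Qbar))
    [Fact (Nat.Prime 19)] (e : Qbar →+* Om 19) :
    ∃ n : ℕ, n < 3 ∧ ∃ u : ℚ_[19], (13 ^ i * 73 ^ j * 19 ^ m : Om 19) =
      e (θ ^ 3) ^ n * (algebraMap ℚ_[19] (Om 19) u) ^ 3 := by
  obtain ⟨R, hR⟩ := local_data hS hc hg e
  have hmem := hI19 (FF e θ) (e om) (om_mem_FF e θ) (om_local e) (e δ) R
    ((map_ne_zero e).2 hg.1) hR
  obtain ⟨w, hw⟩ := hOm 19 (by norm_num) e
  have hfix : ∀ g : Gp 19, g (e om) = e om := by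
    intro g; rw [hw]; exact g.commutes w
  have hbot : ∀ x : Om 19, x ∈ (⊥ : IntermediateField ℚ_[19] (Om 19)) ↔
      ∃ u : ℚ_[19], algebraMap ℚ_[19] (Om 19) u = x := by
    intro x; exact IntermediateField.mem_bot
  obtain ⟨a, b, hab⟩ := hS.cube
  have ht' : (t : Qbar) ≠ 0 := by exact_mod_cast ht
  have hx3 : (e (δ / t)) ^ 3 = (13 ^ i * 73 ^ j * 19 ^ m : Om 19) := by
    rw [← map_pow, div_pow, h]
    push_cast
    rw [mul_div_assoc, div_self (pow_ne_zero _ ht'), mul_one]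
    simp [map_ofNat]
  obtain ⟨n, hn, u, hu, hx⟩ := hKum ℚ_[19] (Om 19) ⊥ (e om) (e θ) (e (δ / t))
    ((hbot _).2 ⟨w, hw.symm⟩) (om_local e) ((map_ne_zero e).2 hS.ne)
    (by
      rw [← map_pow, hab, map_add, map_mul, hw, map_ratCast, map_ratCast]
      exact (hbot _).2 ⟨a + b * w, by simp⟩)
    (by
      rw [hx3]
      exact (hbot _).2 ⟨13 ^ i * 73 ^ j * 19 ^ m, by simp [map_ofNat]⟩)
    (by
      intro g _ hgθ
      have h1 : g (e δ) = e δ := (mem_FF_iff e θ (e δ)).1 hmem g (hfix g) hgθ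
      rw [map_div₀, map_div₀, h1, map_ratCast, map_ratCast])
  obtain ⟨u', hu'⟩ := (hbot u).1 hu
  refine ⟨n, hn, u', ?_⟩
  rw [← hx3, hx, hu', mul_pow, map_pow, ← pow_mul, ← pow_mul, mul_comm n 3, mul_comm]

end F8
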