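import Pool.Agent.H15.F8.PsiCore

/-!
# Project MP_f8d35d_nt: formal properties of cocycles
-/

namespace F8

/-- action of the Galois group on points -/
noncomputable abbrev act (s : Gam) : Pt Qbar →+ Pt Qbar := pm (s : Qbar →+* Qbar)

theorem act_mul (s t : Gam) (R : Pt Qbar) : act (s * t) R = act s (act t R) := by
  rw [act, act, act, pm_comp]
  congr 1

theorem act_one (R : Pt Qbar) : act 1 R = R := by
  have := pm_id R
  exact this

theorem act_inv_act (s : Gam) (R : Pt Qbar) : act s⁻¹ (act s R) = R := by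
  rw [← act_mul, inv_mul_cancel, act_one]

theorem act_act_inv (s : Gam) (R : Pt Qbar) : act s (act s⁻¹ R) = R := by
  rw [← act_mul, mul_inv_cancel, act_one]

theorem pm_res {p : ℕ} [Fact p.Prime] {i : Qbar →+* Om p} {g : Gp p} {s : Gam}
    (h : Res i g s) (T : Pt Qbar) :
    pm i (act s T) = pm (g : Om p →+* Om p) (pm i T) := by
  rw [act, pm_comp, pm_comp]
  have e : i.comp (s : Qbar →+* Qbar) = (g : Om p →+* Om p).comp i :=
    RingHom.ext fun x => (h x).symm
  rw [e]

/-- a point is fixed by an open subgroup -/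
theorem exists_fix (T : Pt Qbar) : ∃ L : IntermediateField ℚ Qbar, FiniteDimensional ℚ L ∧
    ∀ s : Gam, s ∈ L.fixingSubgroup → act s T = T := by
  refine ⟨IntermediateField.adjoin ℚ {xc T, yc T}, ?_, ?_⟩
  · apply IntermediateField.finiteDimensional_adjoin
    intro x _
    exact Algebra.IsIntegral.isIntegral x
  · intro s hs
    rw [IntermediateField.mem_fixingSubgroup_iff] at hs
    have h1 : s (xc T) = xc T := hs _ (IntermediateField.subset_adjoin _ _ (by simp))
    have h2 : s (yc T) = yc T := hs _ (IntermediateField.subset_adjoin _ _ (by simp))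
    by_cases hT : T = 0
    · rw [hT, map_zero]
    · refine pt_ext ((pm_eq_zero _).not.2 hT) hT ?_ ?_
      · rw [xc_pm]; exact h1
      · rw [yc_pm]; exact h2

theorem cont_inf {L M : IntermediateField ℚ Qbar} (hL : FiniteDimensional ℚ L)
    (hM : FiniteDimensional ℚ M) : FiniteDimensional ℚ (L ⊔ M : IntermediateField ℚ Qbar) ∧
    ∀ s : Gam, s ∈ (L ⊔ M : IntermediateField ℚ Qbar).fixingSubgroup →
      s ∈ L.fixingSubgroup ∧ s ∈ M.fixingSubgroup := by
  refine ⟨IntermediateField.finiteDimensional_sup L M, fun s hs => ⟨?_, ?_⟩⟩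
  · exact IntermediateField.fixingSubgroup_antitone le_sup_left hs
  · exact IntermediateField.fixingSubgroup_antitone le_sup_right hs

/-! ### `IsSel` -/

theorem IsSel.add {H : Subgroup Gam} {c c' : Gam → Pt Qbar} (h : IsSel H c) (h' : IsSel H c') :
    IsSel H (fun s => c s + c' s) where
  tor := fun s hs => by rw [nsmul_add, h.tor s hs, h'.tor s hs, add_zero]
  coc := fun s hs t ht => by
    rw [h.coc s hs t ht, h'.coc s hs t ht, map_add]; abel
  cont := by
    obtain ⟨L, hL, h1⟩ := h.cont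
    obtain ⟨M, hM, h2⟩ := h'.cont
    obtain ⟨h3, h4⟩ := cont_inf hL hM
    refine ⟨L ⊔ M, h3, fun s hs hs2 => ?_⟩
    rw [h1 s hs (h4 s hs2).1, h2 s hs (h4 s hs2).2, add_zero]
  loc := fun p _ i => by
    obtain ⟨R, hR⟩ := h.loc p i
    obtain ⟨R', hR'⟩ := h'.loc p i
    refine ⟨R + R', fun g s hs hr => ?_⟩
    rw [map_add, hR g s hs hr, hR' g s hs hr, map_add]; abel

theorem IsSel.neg {H : Subgroup Gam} {c : Gam → Pt Qbar} (h : IsSel H c) :
    IsSel H (fun s => -c s) where
  tor := fun s hs => by rw [smul_neg, h.tor s hs, neg_zero]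
  coc := fun s hs t ht => by
    rw [h.coc s hs t ht, map_neg]; abel
  cont := by
    obtain ⟨L, hL, h1⟩ := h.cont
    exact ⟨L, hL, fun s hs hs2 => by rw [h1 s hs hs2, neg_zero]⟩
  loc := fun p _ i => by
    obtain ⟨R, hR⟩ := h.loc p i
    refine ⟨-R, fun g s hs hr => ?_⟩
    rw [map_neg, hR g s hs hr, map_neg]; abel

theorem IsSel.sub {H : Subgroup Gam} {c c' : Gam → Pt Qbar} (h : IsSel H c) (h' : IsSel H c') :
    IsSel H (fun s => c s - c' s) := by
  have := h.add h'.neg
  simpa [sub_eq_add_neg] using this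

theorem conj_mem {H : Subgroup Gam} (hn : H.Normal) (r : Gam) {s : Gam} (hs : s ∈ H) :
    r⁻¹ * s * r ∈ H := by
  have := hn.conj_mem s hs r⁻¹
  simpa using this

theorem IsSel.conj {H : Subgroup Gam} (hn : H.Normal) {c : Gam → Pt Qbar} (h : IsSel H c)
    (r : Gam) : IsSel H (conj r c) where
  tor := fun s hs => by
    unfold F8.conj
    rw [← map_nsmul, h.tor _ (conj_mem hn r hs), map_zero]
  coc := fun s hs t ht => by
    unfold F8.conj
    have e : r⁻¹ * (s * t) * r = (r⁻¹ * s * r) * (r⁻¹ * t * r) := by group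
    rw [e, h.coc _ (conj_mem hn r hs) _ (conj_mem hn r ht), map_add]
    congr 1
    change act r (act (r⁻¹ * s * r) (c (r⁻¹ * t * r))) = act s (act r (c (r⁻¹ * t * r)))
    rw [← act_mul, ← act_mul]
    congr 2
    group
  cont := by
    obtain ⟨L, hL, h1⟩ := h.cont
    refine ⟨L.map (r : Qbar →ₐ[ℚ] Qbar), ?_, fun s hs hs2 => ?_⟩
    · exact Module.Finite.equiv (IntermediateField.intermediateFieldMap r L).toLinearEquiv
    · unfold F8.conj
      rw [h1 _ (conj_mem hn r hs), map_zero]
      rw [IntermediateField.mem_fixingSubgroup_iff] at hs2 ⊢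
      intro x hx
      have h2 := hs2 (r x) ⟨x, hx, rfl⟩
      rw [AlgEquiv.mul_apply, AlgEquiv.mul_apply, h2, ← AlgEquiv.mul_apply, inv_mul_cancel,
        AlgEquiv.one_apply]
  loc := fun p _ i => by
    obtain ⟨R, hR⟩ := h.loc p (i.comp (r : Qbar →+* Qbar))
    refine ⟨R, fun g s hs hr => ?_⟩
    rw [← hR g _ (conj_mem hn r hs) (hr.conj r)]
    unfold F8.conj
    rw [pm_comp]

/-! ### coboundaries -/

theorem IsCob.add {H : Subgroup Gam} {c c' : Gam → Pt Qbar} (h : IsCob H c) (h' : IsCob H c') :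
    IsCob H (fun s => c s + c' s) := by
  obtain ⟨T, hT, h1⟩ := h
  obtain ⟨T', hT', h2⟩ := h'
  refine ⟨T + T', by rw [nsmul_add, hT, hT', add_zero], fun s hs => ?_⟩
  simp only [h1 s hs, h2 s hs, map_add]; abel

theorem IsCob.neg {H : Subgroup Gam} {c : Gam → Pt Qbar} (h : IsCob H c) :
    IsCob H (fun s => -c s) := by
  obtain ⟨T, hT, h1⟩ := h
  refine ⟨-T, by rw [smul_neg, hT, neg_zero], fun s hs => ?_⟩
  simp only [h1 s hs, map_neg]; abel

theorem IsCob.congr {H : Subgroup Gam} {c c' : Gam → Pt Qbar} (h : IsCob H c)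
    (h' : ∀ s ∈ H, c' s = c s) : IsCob H c' := by
  obtain ⟨T, hT, h1⟩ := h
  exact ⟨T, hT, fun s hs => by rw [h' s hs, h1 s hs]⟩

theorem IsCob.sub {H : Subgroup Gam} {c c' : Gam → Pt Qbar} (h : IsCob H c) (h' : IsCob H c') :
    IsCob H (fun s => c s - c' s) :=
  (h.add h'.neg).congr (fun s _ => by rw [sub_eq_add_neg])

theorem IsCob.conj {H : Subgroup Gam} (hn : H.Normal) {c : Gam → Pt Qbar} (h : IsCob H c)
    (r : Gam) : IsCob H (conj r c) := by
  obtain ⟨T, hT, h1⟩ := h
  refine ⟨act r T, by rw [← map_nsmul, hT, map_zero], fun s hs => ?_⟩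
  unfold F8.conj
  rw [h1 _ (conj_mem hn r hs), map_sub]
  congr 1
  change act r (act (r⁻¹ * s * r) T) = act s (act r T)
  rw [← act_mul, ← act_mul]
  congr 2
  group

theorem conj_conj (r r' : Gam) (c : Gam → Pt Qbar) : conj r (conj r' c) = conj (r * r') c := by
  funext s
  unfold F8.conj
  change act r (act r' (c (r'⁻¹ * (r⁻¹ * s * r) * r'))) = act (r * r') (c ((r * r')⁻¹ * s * (r * r')))
  have e : r'⁻¹ * (r⁻¹ * s * r) * r' = (r * r')⁻¹ * s * (r * r') := by group
  rw [← act_mul, e]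

theorem conj_sub (r : Gam) (c c' : Gam → Pt Qbar) :
    conj r (fun s => c s - c' s) = fun s => conj r c s - conj r c' s := by
  funext s
  unfold F8.conj
  rw [map_sub]

/-- inner conjugation does not change the class -/
theorem cob_inner {H : Subgroup Gam} {c : Gam → Pt Qbar} (h : IsSel H c) {r : Gam} (hr : r ∈ H) :
    IsCob H (fun s => conj r c s - c s) := by
  refine ⟨c r, h.tor r hr, fun s hs => ?_⟩
  have h0 : c 1 = 0 := by
    have := h.coc 1 H.one_mem 1 H.one_mem
    rw [mul_one] at this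
    have h2 : pm ((1 : Gam) : Qbar →+* Qbar) (c 1) = c 1 := act_one (c 1)
    rw [h2] at this
    have h3 : c 1 + c 1 = c 1 + 0 := by rw [← this, add_zero]
    exact add_left_cancel h3
  have h1 : act r (c r⁻¹) = -c r := by
    have := h.coc r hr r⁻¹ (H.inv_mem hr)
    rw [mul_inv_cancel, h0] at this
    exact eq_neg_of_add_eq_zero_right this.symm
  unfold F8.conj
  change act r (c (r⁻¹ * s * r)) - c s = act s (c r) - c r
  rw [mul_assoc, h.coc r⁻¹ (H.inv_mem hr) (s * r) (H.mul_mem hs hr), h.coc s hs r hr, map_add]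
  change act r (c r⁻¹) + act r (act r⁻¹ (c s + act s (c r))) - c s = act s (c r) - c r
  rw [act_act_inv, h1]
  abel

theorem isCob_trans_conj {H : Subgroup Gam} (hn : H.Normal) {c : Gam → Pt Qbar} {r r' : Gam}
    (h : IsCob H (fun s => conj r c s - c s)) (h' : IsCob H (fun s => conj r' c s - c s)) :
    IsCob H (fun s => conj (r * r') c s - c s) := by
  have h1 := h'.conj hn r
  rw [conj_sub, conj_conj] at h1
  exact (h1.add h).congr (fun s _ => by abel)

theorem isCob_pow_conj {H : Subgroup Gam} (hn : H.Normal) {c : Gam → Pt Qbar} {r : Gam}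
    (h : IsCob H (fun s => conj r c s - c s)) (j : ℕ) :
    IsCob H (fun s => conj (r ^ j) c s - c s) := by
  induction j with
  | zero =>
    refine ⟨0, by simp, fun s hs => ?_⟩
    rw [map_zero, sub_zero, pow_zero]
    change act 1 (c (1⁻¹ * s * 1)) - c s = 0
    rw [inv_one, one_mul, mul_one, act_one, sub_self]
  | succ j ih =>
    rw [pow_succ]
    exact isCob_trans_conj hn ih h

/-- invariance under `σ` implies invariance under the full Galois group -/
theorem inv_of_sigma (hK : KSetupStmt) {σ : Gam} (h1 : σ om = om) (h2 : σ th = om * th)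
    {c : Gam → Pt Qbar} (hc : IsSel HK c) (h : IsCob HK (fun s => conj σ c s - c s)) :
    ∀ r : Gam, IsCob HK (fun s => conj r c s - c s) := by
  intro r
  obtain ⟨j, _, g, hg, rfl⟩ := hK.2.2.2.2 σ h1 h2 r
  exact isCob_trans_conj hK.2.2.1 (isCob_pow_conj hK.2.2.1 h j) (cob_inner hc hg)

end F8
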