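import Mathlib

/-!
# Project MP_f8d35d_nt: basic definitions

The curve `E : y^2 + 2xy - 949y = x^3` over `ℚ`, the algebraic closure `Qbar` of `ℚ`, the
`p`-adic fields `Om p`, the cyclic cubic field `KK` of conductor `13 * 73 * 19`.
-/

open WeierstrassCurve WeierstrassCurve.Affine

namespace F8

noncomputable section

/-- decidable equality on algebraic closures (needed for the group law on points) -/
instance decAC (k : Type*) [Field k] : DecidableEq (AlgebraicClosure k) := Classical.decEq _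

/-- the algebraic closure of `ℚ` -/
abbrev Qbar : Type := AlgebraicClosure ℚ

instance instAlgClosureQbar : IsAlgClosure ℚ Qbar where
  isAlgClosed := inferInstance
  isAlgebraic := by
    have h := @AlgebraicClosure.isAlgebraic ℚ _
    have e : (AlgebraicClosure.instAlgebra ℚ : Algebra ℚ (AlgebraicClosure ℚ)) =
      DivisionRing.toRatAlgebra := Subsingleton.elim _ _
    rw [e] at h
    exact h

/-- the absolute Galois group of `ℚ` -/
abbrev Gam : Type := Qbar ≃ₐ[ℚ] Qbar

/-- the algebraic closure of `ℚ_[p]` (it carries the extension of the `p`-adic norm) -/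
abbrev Om (p : ℕ) [Fact p.Prime] : Type := AlgebraicClosure ℚ_[p]

/-- the absolute Galois group of `ℚ_[p]` -/
abbrev Gp (p : ℕ) [Fact p.Prime] : Type := Om p ≃ₐ[ℚ_[p]] Om p

/-! ### The curve and its points -/

/-- the curve `y^2 + 2xy - 949y = x^3` -/
def E : WeierstrassCurve ℚ := ⟨2, 0, -949, 0, 0⟩

/-- points of `E` over a field `A` containing `ℚ` -/
abbrev Pt (A : Type) [Field A] [Algebra ℚ A] : Type := (E⁄A).Point

/-- the map on points of `E` induced by a ring homomorphism of fields -/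
def pm {A B : Type} [Field A] [Field B] [DecidableEq A] [DecidableEq B] [Algebra ℚ A]
    [Algebra ℚ B] (f : A →+* B) : Pt A →+ Pt B :=
  WeierstrassCurve.Affine.Point.map (RingHom.toRatAlgHom f)

section coords

variable {A : Type} [Field A] [Algebra ℚ A]

/-- `x`-coordinate (`0` at the point at infinity) -/
def xc : Pt A → A
  | 0 => 0
  | .some x _ _ => x

/-- `y`-coordinate (`0` at the point at infinity) -/
def yc : Pt A → A
  | 0 => 0
  | .some _ y _ => y

/-- the values of the character `E[3] → μ_3` (Weil pairing with `P`) -/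
def eta [DecidableEq A] (T : Pt A) : A :=
  if xc T = 0 then 1 else (2 * xc T + 3 * yc T) / (2 * xc T - 2847)

/-- `Δ(T)`, a cube root of `25631` for a `3`-torsion point `T` outside `⟨P⟩` -/
def Dl (T : Pt A) : A := (2 * xc T - 2847) / xc T

/-- `β` -/
def bet (w : A) (R : Pt A) : A := (1 - w) * yc R - 2 * w * xc R + 949 * (w * (1 - w))

/-- the function `s` with `s(R+T) = η(T) s(R)` -/
def sf (w : A) (R : Pt A) : A :=
  -(bet w R ^ 3 + w * bet (w ^ 2) R ^ 3 - 25631 * w ^ 2 * xc R ^ 3) /
    (9 * xc R * bet w R * bet (w ^ 2) R)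

/-- the function `t` with `t(R+T) = η(T)⁻¹ t(R)` -/
def tf (w : A) (R : Pt A) : A :=
  (bet w R ^ 3 + w ^ 2 * bet (w ^ 2) R ^ 3 - 25631 * w * xc R ^ 3) /
    (9 * xc R * bet w R * bet (w ^ 2) R)

end coords

/-! ### Cube roots of unity and the fields -/

theorem exists_om : ∃ w : Qbar, w ^ 2 + w + 1 = 0 := by
  have h : (Polynomial.X ^ 2 + Polynomial.X + 1 : Polynomial Qbar).degree ≠ 0 := by
    have : (Polynomial.X ^ 2 + Polynomial.X + 1 : Polynomial Qbar).degree = 2 := by compute_degree!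
    rw [this]; decide
  obtain ⟨w, hw⟩ := IsAlgClosed.exists_root _ h
  exact ⟨w, by simpa [Polynomial.IsRoot] using hw⟩

/-- a primitive cube root of unity in `Qbar` -/
def om : Qbar := exists_om.choose

theorem om_spec : om ^ 2 + om + 1 = 0 := exists_om.choose_spec

/-- `κ_13 = 13 (4 + 3ω)` -/
def ka13 : Qbar := 13 * (4 + 3 * om)
/-- `κ_73 = 73 (1 + 9ω)` -/
def ka73 : Qbar := 73 * (1 + 9 * om)
/-- `κ_19 = 19 (-2 + 3ω)` -/
def ka19 : Qbar := 19 * (-2 + 3 * om)
/-- `κ = 18031 (10 - 129ω) = κ_13 κ_73 κ_19` -/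
def ka : Qbar := 18031 * (10 - 129 * om)

theorem exists_th : ∃ x : Qbar, x ^ 3 = ka :=
  IsAlgClosed.exists_pow_nat_eq ka (by norm_num)

/-- a cube root of `κ` -/
def th : Qbar := exists_th.choose

theorem th_spec : th ^ 3 = ka := exists_th.choose_spec

/-- the generator `θ + 18031/θ` of the cyclic cubic field `KK` -/
def vt : Qbar := th + 18031 / th

/-- the cyclic cubic field of conductor `13 * 19 * 73` -/
def KK : IntermediateField ℚ Qbar := IntermediateField.adjoin ℚ {vt}

/-- its Galois group -/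
abbrev HK : Subgroup Gam := KK.fixingSubgroup

end

/-! ### Restriction to the decomposition group -/

/-- `g` restricts to `s` along the embedding `i` -/
def Res {p : ℕ} [Fact p.Prime] (i : Qbar →+* Om p) (g : Gp p) (s : Gam) : Prop :=
  ∀ x, g (i x) = i (s x)

/-- the local field `ℚ_p(ι ω, ι θ)` -/
noncomputable def FF {p : ℕ} [Fact p.Prime] (i : Qbar →+* Om p) (θ : Qbar) :
    IntermediateField ℚ_[p] (Om p) :=
  IntermediateField.adjoin ℚ_[p] {i om, i θ}

/-! ### Selmer cocycles (working definition: `ι` runs over all embeddings) -/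

/-- the subgroup `H` of `Gam` with a cube root `θ` such that `ℚ(ω, θ)` is the compositum of the
fixed field of `H` with `ℚ(ω)`. It is used for `(Gal(Qbar/KK), th)` and for `(⊤, 1)`. -/
structure Setup (H : Subgroup Gam) (θ : Qbar) : Prop where
  mem : ∀ s : Gam, s om = om → (s ∈ H ↔ s θ = θ)
  tau : ∃ s ∈ H, s om = om ^ 2
  ne : θ ≠ 0
  cube : ∃ a b : ℚ, θ ^ 3 = (a : Qbar) + b * om

/-- Selmer cocycles of `H` (the classes are the elements of the `3`-Selmer group) -/
structure IsSel (H : Subgroup Gam) (c : Gam → Pt Qbar) : Prop where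
  tor : ∀ s ∈ H, (3 : ℕ) • c s = 0
  coc : ∀ s ∈ H, ∀ t ∈ H, c (s * t) = c s + pm (s : Qbar →+* Qbar) (c t)
  cont : ∃ L : IntermediateField ℚ Qbar, FiniteDimensional ℚ L ∧
    ∀ s ∈ H, s ∈ L.fixingSubgroup → c s = 0
  loc : ∀ (p : ℕ) [Fact p.Prime] (i : Qbar →+* Om p), ∃ R : Pt (Om p), ∀ (g : Gp p) (s : Gam),
    s ∈ H → Res i g s → pm i (c s) = pm (g : Om p →+* Om p) R - R

/-- coboundaries -/
def IsCob (H : Subgroup Gam) (c : Gam → Pt Qbar) : Prop :=
  ∃ T : Pt Qbar, (3 : ℕ) • T = 0 ∧ ∀ s ∈ H, c s = pm (s : Qbar →+* Qbar) T - T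

/-- conjugation action of `Gam` on cocycles of a normal subgroup -/
noncomputable def conj (r : Gam) (c : Gam → Pt Qbar) : Gam → Pt Qbar :=
  fun s => pm (r : Qbar →+* Qbar) (c (r⁻¹ * s * r))

end F8
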