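import Pool.Agent.H15.F8.Coh
import Pool.Agent.H15.F8.Targets2

/-!
# Project MP_f8d35d_nt: comparison of the literal Selmer group with the working definition
-/

open WeierstrassCurve WeierstrassCurve.Affine IsDedekindDomain NumberField

namespace F8

section general

variable (K : IntermediateField ℚ Qbar)

instance algClosureQbar : IsAlgClosure K Qbar where
  isAlgClosed := inferInstance
  isAlgebraic := inferInstance

/-- an identification of the two algebraic closures -/
noncomputable def ee : AlgebraicClosure K ≃ₐ[K] Qbar := IsAlgClosure.equiv K _ _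

/-- `Gal(Qbar/K)` as a group of automorphisms of `AlgebraicClosure K` -/
noncomputable def Phi (s : Gam) (hs : s ∈ K.fixingSubgroup) :
    AlgebraicClosure K ≃ₐ[K] AlgebraicClosure K :=
  ((ee K).trans (IntermediateField.fixingSubgroupEquiv K ⟨s, hs⟩)).trans (ee K).symm

theorem Phi_spec (s : Gam) (hs : s ∈ K.fixingSubgroup) (x : AlgebraicClosure K) :
    ee K (Phi K s hs x) = s (ee K x) := by
  unfold Phi
  simp only [AlgEquiv.trans_apply, AlgEquiv.apply_symm_apply]
  rfl

theorem Phi_mul (s t : Gam) (hs : s ∈ K.fixingSubgroup) (ht : t ∈ K.fixingSubgroup) :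
    Phi K (s * t) (mul_mem hs ht) = Phi K s hs * Phi K t ht := by
  ext x
  apply (ee K).injective
  rw [Phi_spec, AlgEquiv.mul_apply, AlgEquiv.mul_apply, Phi_spec, Phi_spec]

theorem exists_Phi (g : AlgebraicClosure K ≃ₐ[K] AlgebraicClosure K) :
    ∃ (s : Gam) (hs : s ∈ K.fixingSubgroup), Phi K s hs = g := by
  let s : Qbar ≃ₐ[K] Qbar := ((ee K).symm.trans g).trans (ee K)
  refine ⟨((IntermediateField.fixingSubgroupEquiv K).symm s : K.fixingSubgroup),
    ((IntermediateField.fixingSubgroupEquiv K).symm s).2, ?_⟩
  ext x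
  apply (ee K).injective
  rw [Phi_spec]
  change s (ee K x) = ee K (g x)
  simp [s]

/-- points over the two algebraic closures -/
noncomputable abbrev pe : Pt (AlgebraicClosure K) →+ Pt Qbar :=
  pm ((ee K : AlgebraicClosure K →+* Qbar))

theorem pe_galAct (s : Gam) (hs : s ∈ K.fixingSubgroup) (R : Pt (AlgebraicClosure K)) :
    pe K (Selmer.galAct E (Phi K s hs) R) = act s (pe K R) := by
  have h : Selmer.galAct E (Phi K s hs) R = pm ((Phi K s hs : _ →+* AlgebraicClosure K)) R := by
    match R with
    | 0 => rfl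
    | .some x y h => rfl
  rw [h, act, pe, pm_comp, pm_comp]
  have e : ((ee K : AlgebraicClosure K →+* Qbar)).comp (Phi K s hs : _ →+* AlgebraicClosure K) =
      (s : Qbar →+* Qbar).comp (ee K : AlgebraicClosure K →+* Qbar) :=
    RingHom.ext fun x => Phi_spec K s hs x
  rw [e]

open Classical in
/-- transport of a cochain -/
noncomputable def tr (c : (AlgebraicClosure K ≃ₐ[K] AlgebraicClosure K) →
    Selmer.GeomPoints E K) : Gam → Pt Qbar :=
  fun s => if h : s ∈ K.fixingSubgroup then pe K (c (Phi K s h)) else 0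

theorem tr_apply (c : (AlgebraicClosure K ≃ₐ[K] AlgebraicClosure K) →
    Selmer.GeomPoints E K) {s : Gam} (h : s ∈ K.fixingSubgroup) :
    tr K c s = pe K (c (Phi K s h)) := by
  unfold tr; rw [dif_pos h]

variable [NumberField K]

theorem isSel_tr (hPl : PlaceStmt) {c : (AlgebraicClosure K ≃ₐ[K] AlgebraicClosure K) →
    Selmer.GeomPoints E K} (hc : c ∈ Selmer.selmerCocycles E K) :
    IsSel K.fixingSubgroup (tr K c) := by
  obtain ⟨⟨hlc, htor, hcoc⟩, hloc, -⟩ := hc
  refine ⟨?_, ?_, ?_, ?_⟩
  · intro s hs
    rw [tr_apply K c hs, ← map_nsmul]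
    have := htor (Phi K s hs)
    rw [this, map_zero]
  · intro s hs t ht
    rw [tr_apply K c hs, tr_apply K c ht, tr_apply K c (mul_mem hs ht), Phi_mul K s t hs ht, hcoc,
      map_add]
    congr 1
    exact pe_galAct K s hs _
  · have hopen : IsOpen {g : AlgebraicClosure K ≃ₐ[K] AlgebraicClosure K | c g = c 1} :=
      hlc.isOpen_fiber (c 1)
    have h1 : c 1 = 0 := by
      have h := hcoc 1 1
      rw [mul_one] at h
      have h2 : Selmer.galAct E (1 : AlgebraicClosure K ≃ₐ[K] AlgebraicClosure K) (c 1) = c 1 := by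
        match c 1 with
        | 0 => rfl
        | .some x y h => rfl
      rw [h2] at h
      exact add_eq_left.1 h.symm
    obtain ⟨E', hE', hsub⟩ := (krullTopology_mem_nhds_one_iff K (AlgebraicClosure K) _).1
      (hopen.mem_nhds (show (1 : AlgebraicClosure K ≃ₐ[K] AlgebraicClosure K) ∈ _ from rfl))
    let L : IntermediateField ℚ Qbar :=
      IntermediateField.restrictScalars ℚ (E'.map (ee K : AlgebraicClosure K →ₐ[K] Qbar))
    refine ⟨L, ?_, ?_⟩
    · have h3 : FiniteDimensional K (E'.map (ee K : AlgebraicClosure K →ₐ[K] Qbar)) :=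
        Module.Finite.equiv (IntermediateField.intermediateFieldMap (ee K) E').toLinearEquiv
      have h4 : FiniteDimensional ℚ K := inferInstance
      exact Module.Finite.trans (R := ℚ) K (E'.map (ee K : AlgebraicClosure K →ₐ[K] Qbar))
    · intro s hs hs2
      rw [tr_apply K c hs]
      have h5 : Phi K s hs ∈ {g : AlgebraicClosure K ≃ₐ[K] AlgebraicClosure K | c g = c 1} := by
        apply hsub
        rw [SetLike.mem_coe, IntermediateField.mem_fixingSubgroup_iff]
        intro x hx
        apply (ee K).injective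
        rw [Phi_spec]
        rw [IntermediateField.mem_fixingSubgroup_iff] at hs2
        exact hs2 _ ⟨x, hx, rfl⟩
      have h6 : c (Phi K s hs) = c 1 := h5
      rw [h6, h1, map_zero]
  · intro p _ i
    obtain ⟨v, j, hj1, hj2, hj3⟩ := hPl K p (i.comp (algebraMap K Qbar))
    let _ : Algebra (v.adicCompletion K) (Om p) := j.toAlgebra
    have _ : Algebra.IsAlgebraic (v.adicCompletion K) (Om p) :=
      ⟨fun y => by
        obtain ⟨q, hq, hy⟩ := hj2 y
        exact ⟨q, hq, hy⟩⟩
    have _ : IsAlgClosure (v.adicCompletion K) (Om p) := ⟨inferInstance, inferInstance⟩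
    let e2 : AlgebraicClosure (v.adicCompletion K) ≃ₐ[v.adicCompletion K] Om p :=
      IsAlgClosure.equiv _ _ _
    let iota : AlgebraicClosure K →ₐ[K] AlgebraicClosure (v.adicCompletion K) :=
      { toRingHom := ((e2.symm : Om p →+* AlgebraicClosure (v.adicCompletion K)).comp i).comp
          (ee K : AlgebraicClosure K →+* Qbar)
        commutes' := fun x => by
          change e2.symm (i (ee K (algebraMap K (AlgebraicClosure K) x))) = _
          rw [AlgEquiv.commutes]
          have h6 : i (algebraMap K Qbar x) = algebraMap (v.adicCompletion K) (Om p)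
            (algebraMap K (v.adicCompletion K) x) := (hj1 x).symm
          rw [h6, AlgEquiv.commutes]
          exact (IsScalarTower.algebraMap_apply K (v.adicCompletion K) _ x).symm }
    obtain ⟨R, hR⟩ := hloc v iota
    refine ⟨pm (e2 : AlgebraicClosure (v.adicCompletion K) →+* Om p) R, fun g s hs hr => ?_⟩
    have hg : ∀ x : v.adicCompletion K, g (j x) = j x := by
      apply hj3 g
      intro x
      have h7 := hr (algebraMap K Qbar x)
      have h8 : s (algebraMap K Qbar x) = algebraMap K Qbar x :=
        (IntermediateField.mem_fixingSubgroup_iff _ s).1 hs _ x.2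
      rw [h8] at h7
      exact h7
    let gL : Om p ≃ₐ[v.adicCompletion K] Om p :=
      { (g : Om p ≃+* Om p) with commutes' := fun x => hg x }
    let g' : AlgebraicClosure (v.adicCompletion K) ≃ₐ[v.adicCompletion K]
      AlgebraicClosure (v.adicCompletion K) := (e2.trans gL).trans e2.symm
    have hg' : ∀ x, g' (iota x) = iota (Phi K s hs x) := by
      intro x
      change e2.symm (g (e2 (e2.symm (i (ee K x))))) = e2.symm (i (ee K (Phi K s hs x)))
      rw [AlgEquiv.apply_symm_apply, hr, Phi_spec]
    have h9 := hR g' (Phi K s hs) hg'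
    have h10 := congrArg (pm (e2 : AlgebraicClosure (v.adicCompletion K) →+* Om p)) h9
    rw [map_sub] at h10
    have h11 : pm (e2 : AlgebraicClosure (v.adicCompletion K) →+* Om p)
        (Point.map iota (c (Phi K s hs))) = pm i (tr K c s) := by
      rw [tr_apply K c hs]
      generalize c (Phi K s hs) = Q
      match Q with
      | 0 => simp
      | .some x y h =>
        refine pt_ext ?_ ?_ ?_ ?_
        · rw [Ne, pm_eq_zero]; exact Point.some_ne_zero _
        · rw [Ne, pm_eq_zero, pe, pm_eq_zero]; exact Point.some_ne_zero _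
        · rw [xc_pm, xc_pm, pe, xc_pm]
          exact AlgEquiv.apply_symm_apply e2 _
        · rw [yc_pm, yc_pm, pe, yc_pm]
          exact AlgEquiv.apply_symm_apply e2 _
    have h12 : pm (e2 : AlgebraicClosure (v.adicCompletion K) →+* Om p) (Selmer.galAct E g' R) =
        pm (g : Om p →+* Om p)
          (pm (e2 : AlgebraicClosure (v.adicCompletion K) →+* Om p) R) := by
      match R with
      | 0 => simp
      | .some x y h =>
        refine pt_ext ?_ ?_ ?_ ?_
        · rw [Ne, pm_eq_zero]; exact Point.some_ne_zero _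
        · rw [Ne, pm_eq_zero, pm_eq_zero]; exact Point.some_ne_zero _
        · rw [xc_pm, xc_pm, xc_pm]
          exact AlgEquiv.apply_symm_apply e2 _
        · rw [yc_pm, yc_pm, yc_pm]
          exact AlgEquiv.apply_symm_apply e2 _
    rw [← h11, h10, h12]

omit [NumberField K] in
theorem cob_of_tr [CharZero K] {c c' : (AlgebraicClosure K ≃ₐ[K] AlgebraicClosure K) →
    Selmer.GeomPoints E K} (h : IsCob K.fixingSubgroup (fun s => tr K c s - tr K c' s)) :
    c - c' ∈ Selmer.coboundaries E K := by
  obtain ⟨T, hT, h1⟩ := h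
  -- descend `T`
  obtain ⟨T0, hT0⟩ : ∃ T0 : Pt (AlgebraicClosure K), pe K T0 = T := by
    refine ⟨pm ((ee K).symm : Qbar →+* AlgebraicClosure K) T, ?_⟩
    rw [pe, pm_comp]
    have e : (ee K : AlgebraicClosure K →+* Qbar).comp
      ((ee K).symm : Qbar →+* AlgebraicClosure K) = RingHom.id Qbar :=
      RingHom.ext fun x => AlgEquiv.apply_symm_apply (ee K) x
    rw [e, pm_id]
  have hinj : Function.Injective (pe K) := pm_injective _
  refine ⟨T0, ?_, fun g => ?_⟩
  · apply hinj
    rw [map_nsmul, hT0, hT, map_zero]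
  · obtain ⟨s, hs, rfl⟩ := exists_Phi K g
    apply hinj
    have h2 := h1 s hs
    simp only at h2
    rw [tr_apply K c hs, tr_apply K c' hs, ← hT0] at h2
    rw [Pi.sub_apply, map_sub, map_sub]
    rw [h2]
    congr 1
    exact (pe_galAct K s hs T0).symm

theorem lit_general (hPl : PlaceStmt)
    (hlab : ∃ lab : (Gam → Pt Qbar) → Fin 3, ∀ c c', IsSel K.fixingSubgroup c →
      IsSel K.fixingSubgroup c' → lab c = lab c' →
      IsCob K.fixingSubgroup (fun s => c s - c' s)) :
    Finite (Selmer.Sel3 E K) ∧ Nat.card (Selmer.Sel3 E K) ≤ 3 := by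
  obtain ⟨lab, hl⟩ := hlab
  let f : Selmer.Sel3 E K → Fin 3 := fun q => lab (tr K (Quotient.out q).1)
  have hf : Function.Injective f := by
    intro q q' h
    have h1 := hl _ _ (isSel_tr K hPl (Quotient.out q).2) (isSel_tr K hPl (Quotient.out q').2) h
    have h2 := cob_of_tr K h1
    have h3 : (Quotient.out q) - (Quotient.out q') ∈
        (Selmer.coboundaries E K).addSubgroupOf (Selmer.selmerCocycles E K) := by
      rw [AddSubgroup.mem_addSubgroupOf]
      exact h2
    have h4 : q' = q := by
      rw [← QuotientAddGroup.out_eq' q, ← QuotientAddGroup.out_eq' q', QuotientAddGroup.eq,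
        neg_add_eq_sub]
      exact h3
    exact h4.symm
  have hfin : Finite (Selmer.Sel3 E K) := Finite.of_injective f hf
  refine ⟨hfin, ?_⟩
  have := Nat.card_le_card_of_injective f hf
  simpa using this

end general

theorem litStmt (hPl : PlaceStmt) : LitStmt := by
  intro _ hlab
  exact lit_general KK hPl hlab

end F8
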