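import Pool.Agent.H15.F8.Gal

/-!
# Project MP_f8d35d_nt: exact module statements

Everything is about the fixed curve `E : y^2 + 2xy - 949y = x^3` (`a1 = 2`, `a3 = -949 = -13*73`,
`D = a1^3 - 27 a3 = 25631 = 19^2 * 71`, discriminant `a3^3 D`), the point `P = PT = (0,0)` of order
three, and the cubic field `KK` of conductor `18031 = 13 * 73 * 19`. See the blueprint.
-/

namespace F8

/-! ## W: explicit geometry of the curve -/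

/-- **W1** (translation by `P`). -/
def AddPStmt : Prop := ∀ (A : Type) [Field A] [DecidableEq A] [Algebra ℚ A] (R : Pt A), xc R ≠ 0 →
  xc (R + PT) = 949 * yc R / xc R ^ 2 ∧
  xc (R - PT) = -949 * (yc R + 2 * xc R - 949) / xc R ^ 2 ∧
  ∀ w : A, w ^ 2 + w + 1 = 0 → bet w (R + PT) / xc (R + PT) = w * (bet w R / xc R)

/-- **W2** (the `3`-torsion points and the character `eta`). -/
def EtaStmt : Prop := ∀ (A : Type) [Field A] [DecidableEq A] [Algebra ℚ A] (w : A),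
  w ^ 2 + w + 1 = 0 →
  (∀ T : Pt A, (3 : ℕ) • T = 0 → eta T ^ 3 = 1) ∧
  (∀ T T' : Pt A, (3 : ℕ) • T = 0 → (3 : ℕ) • T' = 0 → eta (T + T') = eta T * eta T') ∧
  (∀ T : Pt A, (3 : ℕ) • T = 0 → eta T = 1 → T = 0 ∨ T = PT ∨ T = -PT) ∧
  (∀ T : Pt A, (3 : ℕ) • T = 0 → eta T ≠ 1 → Dl T ^ 3 = 25631 ∧ Dl (T + PT) = eta T ^ 2 * Dl T) ∧
  (∀ T T' : Pt A, (3 : ℕ) • T = 0 → (3 : ℕ) • T' = 0 → eta T ≠ 1 → eta T = eta T' →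
    Dl T = Dl T' → T = T') ∧
  (∀ d : A, d ^ 3 = 25631 → ∃ T : Pt A, (3 : ℕ) • T = 0 ∧ eta T = w ∧ Dl T = d)

/-- **W3** (the functions `s`, `t` under translation by `3`-torsion, and the relation). -/
def TransStmt : Prop := ∀ (A : Type) [Field A] [DecidableEq A] [Algebra ℚ A] (w : A),
  w ^ 2 + w + 1 = 0 → ∀ R : Pt A, (3 : ℕ) • R ≠ 0 →
  (tf w R ^ 3 - sf w R ^ 3 - 2 * sf w R * tf w R = -949) ∧
  ∀ T : Pt A, (3 : ℕ) • T = 0 →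
    sf w (R + T) = eta T * sf w R ∧ tf w (R + T) = eta T ^ 2 * tf w R

/-- **W4** (`E(Qbar)` is `3`-divisible; in fact `3R = -(st, s^3)`). -/
def TripleStmt : Prop := ∀ Q : Pt Qbar, ∃ R : Pt Qbar, (3 : ℕ) • R = Q

/-! ## L: purely local statements -/

/-- **L1** elements close to `1` are cubes. -/
def CubeNearStmt : Prop := ∀ (p : ℕ) [Fact p.Prime], p ≠ 3 →
  ∀ (F : IntermediateField ℚ_[p] (Om p)) (u : Om p), u ∈ F → ‖u - 1‖ < 1 →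
  ∃ y ∈ F, y ^ 3 = u

/-- **L2** totally ramified cubic extensions: dominant term of the expansion. -/
def DomStmt : Prop := ∀ (p : ℕ) [Fact p.Prime] (F : IntermediateField ℚ_[p] (Om p)) (π : Om p),
  π ≠ 0 → (∃ a ∈ F, ∃ b ∈ F, ∃ c ∈ F, π ^ 3 = a + b * π + c * π ^ 2) →
  (∀ a ∈ F, ‖a‖ ≠ ‖π‖) → (∀ a ∈ F, ‖a‖ ≠ ‖π‖ ^ 2) →
  ∀ x : Om p, x ≠ 0 → (∀ g : Gp p, (∀ a ∈ F, g a = a) → g π = π → g x = x) →
  ∃ j : ℕ, j < 3 ∧ ∃ b ∈ F, ‖x - b * π ^ j‖ < ‖x‖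

/-- **L3** at `13` and `73` no automorphism moves a point by `±P`. -/
def LAStmt : Prop := ∀ (p : ℕ) [Fact p.Prime], (p = 13 ∨ p = 73) →
  ∀ (R : Pt (Om p)) (g : Gp p), pm (g : Om p →+* Om p) R - R ≠ PT ∧
    pm (g : Om p →+* Om p) R - R ≠ -PT

/-- **L4** at a prime of good reduction, no totally ramified cubic extension moves a point
by `±P`. -/
def LBStmt : Prop := ∀ (p : ℕ) [Fact p.Prime], ‖(949 : Om p)‖ = 1 → ‖(25631 : Om p)‖ = 1 →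
  ∀ (F : IntermediateField ℚ_[p] (Om p)) (π : Om p),
  π ≠ 0 → (∃ a ∈ F, ∃ b ∈ F, ∃ c ∈ F, π ^ 3 = a + b * π + c * π ^ 2) →
  (∀ a ∈ F, ‖a‖ ≠ ‖π‖) → (∀ a ∈ F, ‖a‖ ≠ ‖π‖ ^ 2) →
  ∀ R : Pt (Om p), (∀ g : Gp p, (∀ a ∈ F, g a = a) → g π = π → pm (g : Om p →+* Om p) R = R) →
  ∀ g : Gp p, (∀ a ∈ F, g a = a) →
    pm (g : Om p →+* Om p) R - R ≠ PT ∧ pm (g : Om p →+* Om p) R - R ≠ -PT

/-- **L5** valuation of the Kummer generator at primes not dividing `a3`. -/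
def I1Stmt : Prop := ∀ (p : ℕ) [Fact p.Prime], ‖(949 : Om p)‖ = 1 →
  ∀ (F : IntermediateField ℚ_[p] (Om p)) (w : Om p), w ∈ F → w ^ 2 + w + 1 = 0 →
  ∀ (δ : Om p) (R : Pt (Om p)), δ ≠ 0 →
  (∀ g : Gp p, (∀ a ∈ F, g a = a) → (3 : ℕ) • (pm (g : Om p →+* Om p) R - R) = 0 ∧
    g δ = eta (pm (g : Om p →+* Om p) R - R) * δ) →
  ∃ t ∈ F, t ≠ 0 ∧ ‖δ‖ = ‖t‖

/-- **L6** at `19` the Kummer generator is locally trivial. -/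
def I19Stmt : Prop := ∀ [Fact (Nat.Prime 19)],
  ∀ (F : IntermediateField ℚ_[19] (Om 19)) (w : Om 19), w ∈ F → w ^ 2 + w + 1 = 0 →
  ∀ (δ : Om 19) (R : Pt (Om 19)), δ ≠ 0 →
  (∀ g : Gp 19, (∀ a ∈ F, g a = a) → (3 : ℕ) • (pm (g : Om 19 →+* Om 19) R - R) = 0 ∧
    g δ = eta (pm (g : Om 19 →+* Om 19) R - R) * δ) →
  δ ∈ F

/-- **L7** (value groups) `ℚ_p(ω, θ)` is unramified over `ℚ_p(ω)` outside `13, 73, 19`. -/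
def VStmt (θ : Qbar) : Prop := ∀ (p : ℕ) [Fact p.Prime], p ≠ 13 → p ≠ 73 → p ≠ 19 →
  ∀ (i : Qbar →+* Om p), ∀ t ∈ FF i θ, t ≠ 0 → ∃ m : ℤ, ‖t‖ ^ 2 = (p : ℝ) ^ m

/-- **L8** (Kummer theory) -/
def KumStmt : Prop := ∀ (k L : Type) [Field k] [Field L] [Algebra k L] [IsGalois k L] [CharZero L]
  (F : IntermediateField k L) (w θ x : L), w ∈ F → w ^ 2 + w + 1 = 0 → θ ≠ 0 → θ ^ 3 ∈ F →
  x ^ 3 ∈ F → (∀ g : L ≃ₐ[k] L, (∀ a ∈ F, g a = a) → g θ = θ → g x = x) →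
  ∃ j : ℕ, j < 3 ∧ ∃ a ∈ F, x = a * θ ^ j

/-- **L9** `ω ∈ ℚ_p` for `p ≡ 1 mod 3`. -/
def OmStmt : Prop := ∀ (p : ℕ) [Fact p.Prime], p % 3 = 1 → ∀ i : Qbar →+* Om p,
  ∃ w : ℚ_[p], i om = algebraMap ℚ_[p] (Om p) w

/-! ## G: global Galois statements -/

/-- **G1** (Hilbert 90) -/
def H90Stmt : Prop := ∀ (H : Subgroup Gam) (χ : Gam → Qbar), (∀ s ∈ H, χ s ≠ 0) →
  (∀ s ∈ H, ∀ t ∈ H, χ (s * t) = χ s * s (χ t)) →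
  (∃ L : IntermediateField ℚ Qbar, FiniteDimensional ℚ L ∧
    ∀ s ∈ H, s ∈ L.fixingSubgroup → χ s = 1) →
  ∃ δ : Qbar, δ ≠ 0 ∧ ∀ s ∈ H, s δ = χ s * δ

/-- **G2** the cyclic cubic field, as a group theoretic setup. -/
def KSetupStmt : Prop := Setup HK th ∧ Setup ⊤ 1 ∧ HK.Normal ∧
  (∃ σ : Gam, σ om = om ∧ σ th = om * th) ∧
  ∀ σ : Gam, σ om = om → σ th = om * th → ∀ r : Gam, ∃ j : ℕ, j < 3 ∧ ∃ h ∈ HK, r = σ ^ j * h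

/-- **G3** the cyclic cubic field and its discriminant. -/
def RamStmt : Prop := ∃ _ : NumberField KK, IsGalois ℚ KK ∧ Module.finrank ℚ KK = 3 ∧
  3 ≤ (NumberField.discr KK).natAbs.primeFactors.card

/-! ## N: arithmetic of `ℚ`, `ℤ[ω]` and explicit cubic residues -/

/-- **N1** -/
def RatStmt : Prop := ∀ q : ℚ, q ≠ 0 →
  (∀ p : ℕ, p.Prime → p ≠ 13 → p ≠ 73 → p ≠ 19 → (3 : ℤ) ∣ padicValRat p q) →
  ∃ i j m : ℕ, i < 3 ∧ j < 3 ∧ m < 3 ∧ ∃ t : ℚ, q = 13 ^ i * 73 ^ j * 19 ^ m * t ^ 3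

/-- **N2** (unique factorisation in `ℤ[ω]`) -/
def EisStmt : Prop := ∀ a b : ℚ, ¬ (a = 0 ∧ b = 0) → (∃ r : ℚ, a ^ 2 - a * b + b ^ 2 = r ^ 3) →
  (∀ (p : ℕ) [Fact p.Prime], p % 3 = 1 → p ≠ 13 → p ≠ 73 → p ≠ 19 → ∀ i : Qbar →+* Om p,
    ∃ n : ℤ, ‖i ((a : Qbar) + b * om)‖ = (p : ℝ) ^ (3 * n)) →
  ∃ e x y c : ℕ, e < 3 ∧ x < 3 ∧ y < 3 ∧ c < 3 ∧ ∃ a' b' : ℚ,
    (a : Qbar) + b * om = om ^ e * ka13 ^ x * ka73 ^ y * ka19 ^ c * (a' + b' * om) ^ 3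

/-- **N3** explicit cubic residues modulo `13` and `73`. -/
def Num1Stmt : Prop := ∀ x y c : ℕ, x < 3 → y < 3 → c < 3 →
  ((∀ (p : ℕ) [Fact p.Prime], (p = 13 ∨ p = 73) → ∀ i : Qbar →+* Om p, ∃ j : ℕ, j < 3 ∧
    ∃ t : ℚ_[p], i (ka13 ^ x * ka73 ^ y * ka19 ^ c) = i ka ^ j * (algebraMap ℚ_[p] (Om p) t) ^ 3) →
    x = y ∧ y = c) ∧
  ((∀ (p : ℕ) [Fact p.Prime], (p = 13 ∨ p = 73) → ∀ i : Qbar →+* Om p,
    ∃ t : ℚ_[p], i (ka13 ^ x * ka73 ^ y * ka19 ^ c) = (algebraMap ℚ_[p] (Om p) t) ^ 3) →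
    x = 0 ∧ y = 0 ∧ c = 0)

/-- **N4** explicit cubic residues modulo `19`. -/
def Num2Stmt : Prop := ∀ [Fact (Nat.Prime 19)] (e : Qbar →+* Om 19), ∀ i j m : ℕ, i < 3 → j < 3 →
  m < 3 →
  ((∃ n : ℕ, n < 3 ∧ ∃ t : ℚ_[19], (13 ^ i * 73 ^ j : Om 19) =
    e ka ^ n * (algebraMap ℚ_[19] (Om 19) t) ^ 3) → i = j) ∧
  ((∃ t : ℚ_[19], (13 ^ i * 73 ^ j * 19 ^ m : Om 19) = (algebraMap ℚ_[19] (Om 19) t) ^ 3) →
    i = j ∧ m = 0)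

/-- **N5** `949` is not a norm from `KK`, by reduction modulo `13`. -/
def Norm949Stmt : Prop := ∀ σ : Gam, σ om = om → σ th = om * th → ∀ w ∈ KK,
  w * σ w * σ (σ w) ≠ 949

/-- **N6** `ω` is not a norm from `ℚ(ω, θ)` to `ℚ(ω)`, by reduction modulo `13`. -/
def NormOmStmt : Prop := ∀ σ : Gam, σ om = om → σ th = om * th → ∀ w : Qbar,
  (∀ s : Gam, s om = om → s th = th → s w = w) →
  w * σ w * σ (σ w) ≠ om ∧ w * σ w * σ (σ w) ≠ om ^ 2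

/-! ## C: the cohomological statements -/

/-- **C1** at the prime `19`: an invariant class has `D(c)` of `19`-adic valuation `0 mod 3`. -/
def D19Stmt : Prop := ∀ c : Gam → Pt Qbar, IsSel HK c →
  (∀ r : Gam, IsCob HK (fun s => conj r c s - c s)) →
  ∀ δ : Qbar, δ ≠ 0 → (∀ s ∈ HK, s δ = eta (c s) * δ) → ∀ q : ℚ, δ ^ 3 = q →
  (3 : ℤ) ∣ padicValRat 19 q

/-- local condition for a character `ψ : H → ℤ/3` pushed by `P` -/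
def PsiLoc (H : Subgroup Gam) (ψ : Gam → ZMod 3) : Prop :=
  ∀ (p : ℕ) [Fact p.Prime] (i : Qbar →+* Om p), ∃ R : Pt (Om p), ∀ (g : Gp p) (s : Gam),
    s ∈ H → Res i g s → (ψ s).val • (PT : Pt (Om p)) = pm (g : Om p →+* Om p) R - R

/-- a continuous character of `H` -/
structure IsPsi (H : Subgroup Gam) (ψ : Gam → ZMod 3) : Prop where
  hom : ∀ s ∈ H, ∀ t ∈ H, ψ (s * t) = ψ s + ψ t
  cont : ∃ L : IntermediateField ℚ Qbar, FiniteDimensional ℚ L ∧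
    ∀ s ∈ H, s ∈ L.fixingSubgroup → ψ s = 0

/-- **C2** Kummer generator in `ℚ(ω)` of an invariant character of `HK`, and of any
character of `Gam`. -/
def GIStmt : Prop :=
  (∀ ψ : Gam → ZMod 3, IsPsi HK ψ → (∀ r : Gam, ∀ s ∈ HK, ψ (r⁻¹ * s * r) = ψ s) →
    ∃ z : Qbar, z ≠ 0 ∧ (∀ s ∈ HK, s om = om → s z = om ^ (ψ s).val * z) ∧
    ∃ a b r : ℚ, z ^ 3 = (a : Qbar) + b * om ∧ a ^ 2 - a * b + b ^ 2 = r ^ 3) ∧
  (∀ ψ : Gam → ZMod 3, IsPsi ⊤ ψ →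
    ∃ z : Qbar, z ≠ 0 ∧ (∀ s : Gam, s om = om → s z = om ^ (ψ s).val * z) ∧
    ∃ a b r : ℚ, z ^ 3 = (a : Qbar) + b * om ∧ a ^ 2 - a * b + b ^ 2 = r ^ 3)

/-- the data of a Kummer generator of a local character -/
structure PsiData (H : Subgroup Gam) (θ : Qbar) (ψ : Gam → ZMod 3) (z : Qbar) : Prop where
  setup : Setup H θ
  val : VStmt θ
  psi : IsPsi H ψ
  loc : PsiLoc H ψ
  ne : z ≠ 0
  gen : ∀ s ∈ H, s om = om → s z = om ^ (ψ s).val * z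
  cube : ∃ a b : ℚ, z ^ 3 = (a : Qbar) + b * om

/-- **C3** ramification at primes `p ≡ 1 mod 3` outside `13, 73, 19`. -/
def PsiAStmt : Prop := ∀ (H : Subgroup Gam) (θ : Qbar) (ψ : Gam → ZMod 3) (z : Qbar),
  PsiData H θ ψ z → ∀ (p : ℕ) [Fact p.Prime], p % 3 = 1 → p ≠ 13 → p ≠ 73 → p ≠ 19 →
  ∀ i : Qbar →+* Om p, ∃ n : ℤ, ‖i (z ^ 3)‖ = (p : ℝ) ^ (3 * n)

/-- **C4** ramification at `3`. -/
def PsiBStmt : Prop := ∀ (H : Subgroup Gam) (θ : Qbar) (ψ : Gam → ZMod 3) (z : Qbar),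
  PsiData H θ ψ z → ∀ e x y c : ℕ, e < 3 → x < 3 → y < 3 → c < 3 →
  z ^ 3 = om ^ e * ka13 ^ x * ka73 ^ y * ka19 ^ c → e = 0

/-- **C5** at `13` and `73` the character is locally trivial. -/
def PsiCStmt : Prop := ∀ (H : Subgroup Gam) (θ : Qbar) (ψ : Gam → ZMod 3) (z : Qbar),
  PsiData H θ ψ z → ∀ (p : ℕ) [Fact p.Prime], (p = 13 ∨ p = 73) → ∀ i : Qbar →+* Om p,
  ∃ j : ℕ, j < 3 ∧ ∃ t : ℚ_[p], i (z ^ 3) = i (θ ^ 3) ^ j * (algebraMap ℚ_[p] (Om p) t) ^ 3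

/-- **C6** Hilbert 90 for the cyclic cubic field. -/
def H90KStmt : Prop := ∀ σ : Gam, σ om = om → σ th = om * th → ∀ u ∈ KK,
  u * σ u * σ (σ u) = 1 → ∃ v ∈ KK, v ≠ 0 ∧ σ v = u * v

end F8
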