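import Pool.Agent.H15.F8.Main
import Pool.Agent.H15.F8.Lit
import Pool.Agent.H2.F8.L9
import Pool.Agent.H2.F8.N1
import Pool.Agent.H2.F8.N56
import Pool.Agent.H25.F8.G2
import Pool.Agent.H25.F8.G3
import Pool.Agent.H25.F8.R1
import Pool.Agent.H25.F8.R2
import Pool.Agent.H41.F8.L3
import Pool.Agent.H41.F8.W1
import Pool.Agent.H41.F8.W3
import Pool.Agent.H46.F8.C34
import Pool.Agent.H46.F8.C6
import Pool.Agent.H46.F8.L4
import Pool.Agent.H60.F8.Kum
import Pool.Agent.H73.F8.Place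
import Pool.Agent.H75.F8.N2
import Pool.Agent.H75.F8.W2
import Pool.Agent.H77.F8.C1
import Pool.Agent.H82.F8.L1
import Pool.Agent.H82.F8.L2
import Pool.Agent.H82.F8.L8
import Pool.Agent.H90.F8.G1
import Pool.Agent.H92.F8.C2
import Pool.Agent.H92.F8.C5
import Pool.Agent.H92.F8.N34
import Pool.Agent.H92.F8.W4
import Pool.Agent.H90.F8.L7

/-!
# Project MP_f8d35d_nt: all modules put together
-/

open WeierstrassCurve WeierstrassCurve.Affine

namespace F8

theorem fin_EtaStmt : EtaStmt := etaStmt addPStmt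
theorem fin_I1Stmt : I1Stmt := Pool.Agent.H60.F8.i1 fin_EtaStmt transStmt
theorem fin_I19Stmt : I19Stmt := Pool.Agent.H60.F8.i19 cubeNearStmt fin_EtaStmt transStmt
theorem fin_D19Stmt : D19Stmt :=
  Pool.Agent.H77.F8.d19 addPStmt fin_EtaStmt fin_I19Stmt cubeNearStmt domStmt kumStmt H2.omStmt
    ksetup
theorem fin_GIStmt : GIStmt := H92.gi h90Stmt ksetup (H2.normOmStmt domStmt)
theorem fin_LBStmt : LBStmt := lbStmt addPStmt domStmt
theorem fin_PsiAStmt : PsiAStmt := H46.psiA H2.omStmt fin_LBStmt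
theorem fin_PsiBStmt : PsiBStmt := H46.psiB fin_LBStmt
theorem fin_PsiCStmt : PsiCStmt := H92.psiC laStmt kumStmt H2.omStmt
theorem fin_Num1Stmt : Num1Stmt := H92.num1 H2.omStmt
theorem fin_Num2Stmt : Num2Stmt := H92.num2 H2.omStmt
theorem fin_Norm949Stmt : Norm949Stmt := H2.norm949Stmt domStmt

theorem fin_labelK (hV : VStmt th ∧ VStmt 1) :
    ∃ lab : (Gam → Pt Qbar) → Fin 3, ∀ c c', IsSel HK c → IsSel HK c' →
      lab c = lab c' → IsCob HK (fun s => c s - c' s) :=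
  labelK fin_EtaStmt fin_I1Stmt fin_I19Stmt hV kumStmt H2.omStmt h90Stmt ksetup H2.ratStmt
    eisStmt fin_Num1Stmt fin_Num2Stmt fin_Norm949Stmt fin_D19Stmt fin_GIStmt fin_PsiAStmt
    fin_PsiBStmt fin_PsiCStmt H46.h90KStmt

theorem fin_labelQ (hV : VStmt th ∧ VStmt 1) :
    ∃ lab : (Gam → Pt Qbar) → Fin 3, ∀ c c', IsSel ⊤ c → IsSel ⊤ c' →
      lab c = lab c' → IsCob ⊤ (fun s => c s - c' s) :=
  labelQ fin_EtaStmt fin_I1Stmt fin_I19Stmt hV kumStmt H2.omStmt h90Stmt ksetup H2.ratStmt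
    eisStmt fin_Num1Stmt fin_Num2Stmt fin_GIStmt fin_PsiAStmt fin_PsiBStmt fin_PsiCStmt

theorem fin_finite (hV : VStmt th ∧ VStmt 1) : Finite (Pt ℚ) :=
  finite_points H92.tripleStmt para finStmt (fin_labelQ hV)

theorem fin_answer (hV : VStmt th ∧ VStmt 1) : Answer :=
  answer_of (fin_finite hV) ram (litStmt placeStmt) (fin_labelK hV)

end F8
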