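import Pool.Agent.H15.F8.Basic

/-!
# Project MP_f8d35d_nt: Galois basics (fixed fields, restriction along embeddings, norms)
-/

namespace F8

theorem mem_iff_fixed {k : Type*} {L : Type*} [Field k] [Field L] [Algebra k L] [IsGalois k L]
    (F : IntermediateField k L) (x : L) :
    x ∈ F ↔ ∀ g : L ≃ₐ[k] L, (∀ a ∈ F, g a = a) → g x = x := by
  constructor
  · intro h g hg; exact hg x h
  · intro h
    rw [← InfiniteGalois.fixedField_fixingSubgroup F]
    rw [IntermediateField.mem_fixedField_iff]
    intro g hg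
    exact h g (fun a ha => (IntermediateField.mem_fixingSubgroup_iff F g).1 hg a ha)

theorem fix_rat (x : Qbar) (h : ∀ s : Gam, s x = x) : ∃ q : ℚ, x = (q : Qbar) := by
  have : x ∈ (⊥ : IntermediateField ℚ Qbar) := (mem_iff_fixed _ x).2 (fun g _ => h g)
  obtain ⟨q, hq⟩ := IntermediateField.mem_bot.1 this
  exact ⟨q, by rw [← hq]; simp⟩

theorem fix_adjoin {k : Type*} {L : Type*} [Field k] [Field L] [Algebra k L] (S : Set L)
    (g : L ≃ₐ[k] L) (h : ∀ a ∈ S, g a = a) : ∀ a ∈ IntermediateField.adjoin k S, g a = a := by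
  have h1 : g ∈ (IntermediateField.adjoin k S).fixingSubgroup := by
    rw [IntermediateField.mem_fixingSubgroup_iff]
    intro a ha
    have h2 : IntermediateField.adjoin k S ≤
        IntermediateField.fixedField (Subgroup.zpowers g) := by
      rw [IntermediateField.adjoin_le_iff]
      intro a ha
      rw [SetLike.mem_coe, IntermediateField.mem_fixedField_iff]
      intro f hf
      obtain ⟨n, rfl⟩ := Subgroup.mem_zpowers_iff.1 hf
      have h3 : g ∈ MulAction.stabilizer (L ≃ₐ[k] L) a := h a ha
      have h4 : g ^ n ∈ MulAction.stabilizer (L ≃ₐ[k] L) a := Subgroup.zpow_mem _ h3 n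
      exact h4
    have h5 := h2 ha
    rw [IntermediateField.mem_fixedField_iff] at h5
    exact h5 g (Subgroup.mem_zpowers g)
  exact fun a ha => (IntermediateField.mem_fixingSubgroup_iff _ g).1 h1 a ha

theorem mem_FF_iff {p : ℕ} [Fact p.Prime] (i : Qbar →+* Om p) (θ : Qbar) (x : Om p) :
    x ∈ FF i θ ↔ ∀ g : Gp p, g (i om) = i om → g (i θ) = i θ → g x = x := by
  rw [mem_iff_fixed]
  constructor
  · intro h g h1 h2
    refine h g (fix_adjoin _ g ?_)
    rintro a (rfl | rfl)
    · exact h1
    · exact h2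
  · intro h g hg
    exact h g (hg _ (IntermediateField.subset_adjoin _ _ (by simp)))
      (hg _ (IntermediateField.subset_adjoin _ _ (by simp)))

theorem om_mem_FF {p : ℕ} [Fact p.Prime] (i : Qbar →+* Om p) (θ : Qbar) : i om ∈ FF i θ :=
  IntermediateField.subset_adjoin _ _ (by simp)

theorem th_mem_FF {p : ℕ} [Fact p.Prime] (i : Qbar →+* Om p) (θ : Qbar) : i θ ∈ FF i θ :=
  IntermediateField.subset_adjoin _ _ (by simp)

/-- every element of the decomposition group restricts to `Qbar` -/
theorem exists_res {p : ℕ} [Fact p.Prime] (i : Qbar →+* Om p) (g : Gp p) :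
    ∃ s : Gam, Res i g s := by
  let _ : Algebra Qbar (Om p) := i.toAlgebra
  have _ : IsScalarTower ℚ Qbar (Om p) := IsScalarTower.rat
  let g' : Om p →ₐ[ℚ] Om p := RingHom.toRatAlgHom (g : Om p →+* Om p)
  refine ⟨g'.restrictNormal' Qbar, fun x => ?_⟩
  have := g'.restrictNormal_commutes Qbar x
  exact this.symm

theorem Res.mul {p : ℕ} [Fact p.Prime] {i : Qbar →+* Om p} {g g' : Gp p} {s s' : Gam}
    (h : Res i g s) (h' : Res i g' s') : Res i (g * g') (s * s') := by
  intro x
  rw [AlgEquiv.mul_apply, AlgEquiv.mul_apply, h' x, h]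

theorem Res.inv {p : ℕ} [Fact p.Prime] {i : Qbar →+* Om p} {g : Gp p} {s : Gam}
    (h : Res i g s) : Res i g⁻¹ s⁻¹ := by
  intro x
  have h1 := h (s⁻¹ x)
  have h2 : s (s⁻¹ x) = x := by
    rw [← AlgEquiv.mul_apply, mul_inv_cancel, AlgEquiv.one_apply]
  rw [h2] at h1
  rw [← h1, ← AlgEquiv.mul_apply, inv_mul_cancel, AlgEquiv.one_apply]

/-- changing the embedding by an element of the Galois group -/
theorem Res.conj {p : ℕ} [Fact p.Prime] {i : Qbar →+* Om p} {g : Gp p} {s : Gam}
    (h : Res i g s) (r : Gam) : Res (i.comp (r : Qbar →+* Qbar)) g (r⁻¹ * s * r) := by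
  intro x
  have h2 : ∀ y, r (r⁻¹ y) = y := fun y => by
    rw [← AlgEquiv.mul_apply, mul_inv_cancel, AlgEquiv.one_apply]
  change g (i (r x)) = i (r ((r⁻¹ * s * r) x))
  rw [h (r x), AlgEquiv.mul_apply, AlgEquiv.mul_apply, h2]

theorem norm_gal {p : ℕ} [Fact p.Prime] (g : Gp p) (x : Om p) : ‖g x‖ = ‖x‖ := by
  have := spectralNorm_eq_of_equiv (K := ℚ_[p]) (L := Om p) g x
  exact this.symm

theorem res_om {p : ℕ} [Fact p.Prime] {i : Qbar →+* Om p} {g : Gp p} {s : Gam}
    (h : Res i g s) : g (i om) = i om ↔ s om = om := by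
  rw [h om]
  exact ⟨fun h => i.injective h, fun h => by rw [h]⟩

theorem res_eq {p : ℕ} [Fact p.Prime] {i : Qbar →+* Om p} {g : Gp p} {s : Gam}
    (h : Res i g s) (x y : Qbar) : g (i x) = i y ↔ s x = y := by
  rw [h x]
  exact ⟨fun h => i.injective h, fun h => by rw [h]⟩

/-- elements fixed by the automorphisms fixing `ω` -/
theorem fix_om (x : Qbar) (h : ∀ s : Gam, s om = om → s x = x) :
    ∃ a b : ℚ, x = (a : Qbar) + b * om := by
  -- choose an automorphism moving `ω`
  by_cases hm : ∃ r : Gam, r om = om ^ 2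
  · obtain ⟨r, hr⟩ := hm
    have hr2 : r (om ^ 2) = om := by
      rw [map_pow, hr]
      linear_combination om * om_cube
    have hne : om - om ^ 2 ≠ 0 := by
      intro h0
      have : om * (1 - om) = 0 := by linear_combination h0
      rcases mul_eq_zero.mp this with h1 | h1
      · exact om_ne_zero h1
      · exact om_ne_one (by linear_combination -h1)
    -- behaviour of `r x`
    have key : ∀ s : Gam, (s om = om ∧ s x = x ∧ s (r x) = r x) ∨
        (s om = om ^ 2 ∧ s x = r x ∧ s (r x) = x) := by
      intro s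
      have hrr : r (r x) = x := by
        have : (r * r) om = om := by rw [AlgEquiv.mul_apply, hr, hr2]
        exact h _ this
      rcases gam_om s with hs | hs
      · left
        refine ⟨hs, h s hs, ?_⟩
        have h1 : (r⁻¹ * s * r) om = om := by
          rw [AlgEquiv.mul_apply, AlgEquiv.mul_apply, hr, map_pow, hs, ← hr,
            ← AlgEquiv.mul_apply, inv_mul_cancel, AlgEquiv.one_apply]
        have h2 := h _ h1
        rw [AlgEquiv.mul_apply, AlgEquiv.mul_apply] at h2
        have h3 := congrArg r h2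
        rw [← AlgEquiv.mul_apply, mul_inv_cancel, AlgEquiv.one_apply] at h3
        exact h3
      · right
        refine ⟨hs, ?_, ?_⟩
        · have h1 : (r⁻¹ * s) om = om := by
            rw [AlgEquiv.mul_apply, hs, ← hr, ← AlgEquiv.mul_apply, inv_mul_cancel,
              AlgEquiv.one_apply]
          have h2 := congrArg r (h _ h1)
          rw [AlgEquiv.mul_apply, ← AlgEquiv.mul_apply, mul_inv_cancel, AlgEquiv.one_apply] at h2
          exact h2
        · have h1 : (s * r) om = om := by
            rw [AlgEquiv.mul_apply, hr, map_pow, hs]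
            linear_combination om * om_cube
          exact h _ h1
    -- the coefficients
    obtain ⟨b, hb⟩ := fix_rat ((x - r x) / (om - om ^ 2)) (by
      intro s
      rcases key s with ⟨h1, h2, h3⟩ | ⟨h1, h2, h3⟩
      · rw [map_div₀, map_sub, map_sub, map_pow, h1, h2, h3]
      · rw [map_div₀, map_sub, map_sub, map_pow, h1, h2, h3]
        have e : (om ^ 2) ^ 2 = om := by linear_combination om * om_cube
        rw [e, div_eq_div_iff (by intro h0; exact hne (by linear_combination -h0)) hne]
        ring)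
    obtain ⟨a, ha⟩ := fix_rat (x - b * om) (by
      intro s
      rcases key s with ⟨h1, h2, h3⟩ | ⟨h1, h2, h3⟩
      · rw [map_sub, map_mul, h1, h2]; simp
      · rw [map_sub, map_mul, h1, h2]
        have e : x - r x = b * (om - om ^ 2) := by
          rw [← hb, div_mul_cancel₀ _ hne]
        simp only [map_ratCast]
        linear_combination -e)
    exact ⟨a, b, by linear_combination ha⟩
  · have h2 : ∀ s : Gam, s om = om := fun s => by
      rcases gam_om s with h | h
      · exact h
      · exact absurd ⟨s, h⟩ hm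
    obtain ⟨q, hq⟩ := fix_rat x (fun s => h s (h2 s))
    exact ⟨q, 0, by rw [hq]; simp⟩

end F8
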