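import Pool.Agent.H15.F8.RankQ

/-!
# Project MP_f8d35d_nt: final assembly (modulo the modules)
-/

open WeierstrassCurve WeierstrassCurve.Affine

namespace F8

theorem E_elliptic : E.IsElliptic := by
  refine ⟨?_⟩
  rw [isUnit_iff_ne_zero]
  simp only [E, WeierstrassCurve.Δ, WeierstrassCurve.b₂, WeierstrassCurve.b₄, WeierstrassCurve.b₆,
    WeierstrassCurve.b₈]
  norm_num

theorem addOrderOf_PT : addOrderOf (PT : Pt ℚ) = 3 :=
  addOrderOf_eq_prime three_PT PT_ne_zero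

section

variable (hEta : EtaStmt) (hTriple : TripleStmt) (hLA : LAStmt) (hLB : LBStmt) (hI1 : I1Stmt)
  (hI19 : I19Stmt) (hV : VStmt th ∧ VStmt 1) (hKum : KumStmt) (hOm : OmStmt) (h90 : H90Stmt)
  (hK : KSetupStmt) (hRat : RatStmt) (hEis : EisStmt) (hNum1 : Num1Stmt)
  (hNum2 : Num2Stmt) (hN949 : Norm949Stmt) (hD19 : D19Stmt) (hGI : GIStmt) (hA : PsiAStmt)
  (hB : PsiBStmt) (hC : PsiCStmt) (h90K : H90KStmt)

include hEta hI1 hI19 hV hKum hOm h90 hK hRat hEis hNum1 hNum2 hN949 hD19 hGI hA hB hC h90K in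
theorem labelK : ∃ lab : (Gam → Pt Qbar) → Fin 3, ∀ c c', IsSel HK c → IsSel HK c' →
    lab c = lab c' → IsCob HK (fun s => c s - c' s) := by
  have hzero : ∀ ψ : Gam → ZMod 3, IsPsi HK ψ → PsiLoc HK ψ → ∀ s ∈ HK, ψ s = 0 :=
    fun ψ hψ hl => psi_nil hK (fun ψ hψ hl hinv =>
      psi_main hEis hA hB hC hK hV.1 hNum1 hGI hψ hl hinv) hψ hl
  have hinvgen : ∀ c : Gam → Pt Qbar, IsSel HK c →
      (∀ r : Gam, IsCob HK (fun s => conj r c s - c s)) →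
      ∃ δ : Qbar, Gen HK c δ ∧ ∃ i : ℕ, i < 3 ∧ ∃ t : ℚ, t ≠ 0 ∧
        δ ^ 3 = ((949 ^ i * t ^ 3 : ℚ) : Qbar) := fun c hc hinv =>
    claim2 hEta hI1 hI19 hKum hOm hK hRat hNum2 hV.1 h90 h90K hD19 hc hinv
  exact exists_label hEta hzero (fun c hc => hinvgen c hc
    (all_invariant hEta hK h90 hN949 hzero hinvgen hc))

include hEta hI1 hI19 hV hKum hOm h90 hK hRat hEis hNum1 hNum2 hGI hA hB hC in
theorem labelQ : ∃ lab : (Gam → Pt Qbar) → Fin 3, ∀ c c', IsSel ⊤ c → IsSel ⊤ c' →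
    lab c = lab c' → IsCob ⊤ (fun s => c s - c' s) :=
  exists_label hEta (fun _ hψ hl s _ =>
    psi_mainQ hEis hA hB hC hK hV.2 hNum1 hGI hψ hl s)
    (fun _ hc => claim2Q hEta hI1 hI19 hKum hOm hK hRat hNum2 hV.2 h90 hc)

end

/-- the final statement -/
def Answer : Prop :=
  ∃ (W : WeierstrassCurve ℚ) (_ : W.IsElliptic),
    (∃ P : (W⁄ℚ).Point, addOrderOf P = 3) ∧ Finite (W⁄ℚ).Point ∧
    ∃ (K : Type) (_ : Field K) (_ : NumberField K),
      IsGalois ℚ K ∧ Module.finrank ℚ K = 3 ∧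
      ¬ 3 ^ ((NumberField.discr K).natAbs.primeFactors.card - 1) ∣ Nat.card (Selmer.Sel3 W K)

theorem answer_of (hfin : Finite (Pt ℚ)) (hRam : RamStmt) (hLit : LitStmt)
    (hlab : ∃ lab : (Gam → Pt Qbar) → Fin 3, ∀ c c', IsSel HK c → IsSel HK c' →
      lab c = lab c' → IsCob HK (fun s => c s - c' s)) : Answer := by
  obtain ⟨hNF, hGal, hdeg, hcard⟩ := hRam
  obtain ⟨h1, h2⟩ := hLit hlab
  refine ⟨E, E_elliptic, ⟨PT, addOrderOf_PT⟩, hfin, KK, inferInstance, hNF, hGal, hdeg, ?_⟩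
  intro hdvd
  have hpos : 0 < Nat.card (Selmer.Sel3 E KK) := Nat.card_pos
  have h3 := Nat.le_of_dvd hpos hdvd
  have h4 : 3 ^ 2 ≤ 3 ^ ((NumberField.discr KK).natAbs.primeFactors.card - 1) :=
    Nat.pow_le_pow_right (by norm_num) (by omega)
  omega

end F8
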