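import Pool.Agent.H15.F8.Targets

/-!
# Project MP_f8d35d_nt: the `ψ`-part of the Selmer group vanishes
-/

namespace F8

theorem setup_cube_mem {H : Subgroup Gam} {θ : Qbar} (hS : Setup H θ) :
    ∀ s : Gam, s om = om → s (θ ^ 3) = θ ^ 3 := by
  intro s hs
  obtain ⟨a, b, h⟩ := hS.cube
  rw [h, map_add, map_mul, hs]
  simp

theorem om_pow_ne {n : ℕ} (hn : n < 3) (h : om ^ n = 1) : n = 0 := by
  interval_cases n
  · rfl
  · exact absurd (by simpa using h) om_ne_one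
  · exfalso
    apply om_ne_one
    have : om ^ 3 = om * om ^ 2 := by ring
    rw [h, mul_one, om_cube] at this
    exact this.symm

theorem om_pow_mod (n : ℕ) : om ^ n = om ^ (n % 3) := by
  conv_lhs => rw [← Nat.div_add_mod n 3]
  rw [pow_add, pow_mul, om_cube, one_pow, one_mul]

theorem zmod3_val_lt (x : ZMod 3) : x.val < 3 := ZMod.val_lt x

theorem psi_eq_zero_of_om_pow {x : ZMod 3} (h : om ^ x.val = 1) : x = 0 := by
  have := om_pow_ne (zmod3_val_lt x) h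
  exact (ZMod.val_eq_zero x).1 this

theorem cube_root_of_one {x : Qbar} (h : x ^ 3 = 1) : ∃ n : ℕ, x = om ^ n := by
  have h1 : (x - 1) * (x - om) * (x - om ^ 2) = 0 := by
    linear_combination h - (x ^ 2 - om * x + om - 1) * om_spec
  rcases mul_eq_zero.mp h1 with h2 | h2
  · rcases mul_eq_zero.mp h2 with h3 | h3
    · exact ⟨0, by linear_combination h3⟩
    · exact ⟨1, by linear_combination h3⟩
  · exact ⟨2, by linear_combination h2⟩

/-- characters are determined on the stabiliser of `ω` -/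
theorem psi_zero_of_om {H : Subgroup Gam} {ψ : Gam → ZMod 3} (hψ : IsPsi H ψ)
    (h : ∀ s ∈ H, s om = om → ψ s = 0) : ∀ s ∈ H, ψ s = 0 := by
  intro s hs
  rcases gam_om s with h1 | h1
  · exact h s hs h1
  · have h2 : (s * s) om = om := by
      rw [AlgEquiv.mul_apply, h1, map_pow, h1]
      linear_combination om * om_cube
    have h3 := h (s * s) (H.mul_mem hs hs) h2
    rw [hψ.hom s hs s hs] at h3
    have h4 : ∀ x : ZMod 3, x + x = 0 → x = 0 := by decide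
    exact h4 _ h3

theorem psi_core (hEis : EisStmt) (hA : PsiAStmt) (hB : PsiBStmt) (hC : PsiCStmt)
    {H : Subgroup Gam} {θ : Qbar} (hS : Setup H θ) (hV : VStmt θ)
    {ψ : Gam → ZMod 3} (hψ : IsPsi H ψ) (hloc : PsiLoc H ψ) {z : Qbar} (hz : z ≠ 0)
    (hzψ : ∀ s ∈ H, s om = om → s z = om ^ (ψ s).val * z)
    (hf : ∃ a b r : ℚ, z ^ 3 = (a : Qbar) + b * om ∧ a ^ 2 - a * b + b ^ 2 = r ^ 3)
    (hnum : ∀ x y c : ℕ, x < 3 → y < 3 → c < 3 →
      (∀ (p : ℕ) [Fact p.Prime], (p = 13 ∨ p = 73) → ∀ i : Qbar →+* Om p, ∃ j : ℕ, j < 3 ∧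
        ∃ t : ℚ_[p], i (ka13 ^ x * ka73 ^ y * ka19 ^ c) =
          i (θ ^ 3) ^ j * (algebraMap ℚ_[p] (Om p) t) ^ 3) →
      ∃ j : ℕ, ka13 ^ x * ka73 ^ y * ka19 ^ c = (θ ^ 3) ^ j) :
    ∀ s ∈ H, ψ s = 0 := by
  obtain ⟨a, b, r, hab, hr⟩ := hf
  have hD : PsiData H θ ψ z := ⟨hS, hV, hψ, hloc, hz, hzψ, a, b, hab⟩
  have hne : ¬ (a = 0 ∧ b = 0) := by
    rintro ⟨rfl, rfl⟩
    apply hz
    have : z ^ 3 = 0 := by rw [hab]; simp
    exact pow_eq_zero_iff (by norm_num) |>.1 this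
  obtain ⟨e, x, y, c, he, hx, hy, hc, a', b', heq⟩ := hEis a b hne ⟨r, hr⟩ (by
    intro p _ h1 h2 h3 h4 i
    obtain ⟨n, hn⟩ := hA H θ ψ z hD p h1 h2 h3 h4 i
    exact ⟨n, by rw [← hab]; exact hn⟩)
  rw [← hab] at heq
  set t : Qbar := (a' : Qbar) + b' * om with ht
  have ht0 : t ≠ 0 := by
    intro h0
    rw [h0] at heq
    apply hz
    have : z ^ 3 = 0 := by rw [heq]; simp
    exact pow_eq_zero_iff (by norm_num) |>.1 this
  have htfix : ∀ s : Gam, s om = om → s t = t := by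
    intro s hs
    rw [ht, map_add, map_mul, hs]; simp
  have hz' : z / t ≠ 0 := div_ne_zero hz ht0
  have hgen' : ∀ s ∈ H, s om = om → s (z / t) = om ^ (ψ s).val * (z / t) := by
    intro s hs hs2
    rw [map_div₀, htfix s hs2, hzψ s hs hs2, mul_div_assoc]
  have heq' : (z / t) ^ 3 = om ^ e * ka13 ^ x * ka73 ^ y * ka19 ^ c := by
    rw [div_pow, heq]; field_simp
  have hfixcube : ∃ a b : ℚ, (z / t) ^ 3 = (a : Qbar) + b * om := by
    apply fix_om
    intro s hs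
    rw [heq']
    simp only [map_mul, map_pow, hs, ka13, ka73, ka19, map_add, map_neg, map_one, map_ofNat]
  have hD' : PsiData H θ ψ (z / t) := ⟨hS, hV, hψ, hloc, hz', hgen', hfixcube⟩
  have he0 : e = 0 := hB H θ ψ (z / t) hD' e x y c he hx hy hc heq'
  subst he0
  rw [pow_zero, one_mul] at heq'
  obtain ⟨j, hj⟩ := hnum x y c hx hy hc (by
    intro p _ hp i
    rw [← heq']
    exact hC H θ ψ (z / t) hD' p hp i)
  rw [hj] at heq'
  obtain ⟨n, hn⟩ := cube_root_of_one (x := (z / t) / θ ^ j) (by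
    rw [div_pow, heq', ← pow_mul, ← pow_mul, mul_comm j 3]
    exact div_self (pow_ne_zero _ hS.ne))
  have hzt : z / t = om ^ n * θ ^ j := by
    rw [← hn]
    exact (div_mul_cancel₀ _ (pow_ne_zero _ hS.ne)).symm
  apply psi_zero_of_om hψ
  intro s hs hs2
  have h1 := hgen' s hs hs2
  have h2 : s θ = θ := (hS.mem s hs2).1 hs
  rw [hzt, map_mul, map_pow, map_pow, hs2, h2, ← hzt] at h1
  have h3 : om ^ (ψ s).val = 1 := by
    have := mul_right_cancel₀ hz' (h1.symm.trans (one_mul _).symm)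
    exact this
  exact psi_eq_zero_of_om_pow h3

theorem ka_prod : ka13 * ka73 * ka19 = ka := by
  unfold ka13 ka73 ka19 ka
  linear_combination 18031 * (81 * om - 18) * om_spec

/-- `ψ = 0` for an invariant local character of `HK` -/
theorem psi_main (hEis : EisStmt) (hA : PsiAStmt) (hB : PsiBStmt) (hC : PsiCStmt)
    (hK : KSetupStmt) (hV : VStmt th) (hN : Num1Stmt) (hGI : GIStmt)
    {ψ : Gam → ZMod 3} (hψ : IsPsi HK ψ) (hloc : PsiLoc HK ψ)
    (hinv : ∀ r : Gam, ∀ s ∈ HK, ψ (r⁻¹ * s * r) = ψ s) : ∀ s ∈ HK, ψ s = 0 := by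
  obtain ⟨z, hz, hzψ, hf⟩ := hGI.1 ψ hψ hinv
  refine psi_core hEis hA hB hC hK.1 hV hψ hloc hz hzψ hf ?_
  intro x y c hx hy hc h
  have h1 := (hN x y c hx hy hc).1 (by
    intro p _ hp i
    have := h p hp i
    rwa [th_spec] at this)
  obtain ⟨rfl, rfl⟩ := h1
  exact ⟨x, by rw [th_spec, ← ka_prod, mul_pow, mul_pow]⟩

/-- `ψ = 0` for a local character of `Gam` -/
theorem psi_mainQ (hEis : EisStmt) (hA : PsiAStmt) (hB : PsiBStmt) (hC : PsiCStmt)
    (hK : KSetupStmt) (hV : VStmt 1) (hN : Num1Stmt) (hGI : GIStmt)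
    {ψ : Gam → ZMod 3} (hψ : IsPsi ⊤ ψ) (hloc : PsiLoc ⊤ ψ) : ∀ s : Gam, ψ s = 0 := by
  obtain ⟨z, hz, hzψ, hf⟩ := hGI.2 ψ hψ
  have := psi_core hEis hA hB hC hK.2.1 hV hψ hloc hz (fun s _ => hzψ s) hf (by
    intro x y c hx hy hc h
    obtain ⟨rfl, rfl, rfl⟩ := (hN x y c hx hy hc).2 (by
      intro p _ hp i
      obtain ⟨j, _, t, ht⟩ := h p hp i
      exact ⟨t, by rw [ht]; simp⟩)
    exact ⟨0, by simp⟩)
  exact fun s => this s (Subgroup.mem_top s)

end F8
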