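import Pool.Agent.H15.F8.Bound2

/-!
# Project MP_f8d35d_nt: `E(ℚ)` is finite
-/

namespace F8

/-- the inclusion `E(ℚ) → E(Qbar)` -/
noncomputable abbrev inc : Pt ℚ →+ Pt Qbar := pm (algebraMap ℚ Qbar)

theorem act_inc (s : Gam) (Q : Pt ℚ) : act s (inc Q) = inc Q := by
  rw [act, inc, pm_comp]
  congr 1
  congr 1
  ext x
  simp

theorem exists_rational {R : Pt Qbar} (h : ∀ s : Gam, act s R = R) : ∃ S : Pt ℚ, inc S = R := by
  by_cases hR : R = 0
  · exact ⟨0, by rw [hR, map_zero]⟩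
  obtain ⟨x, hx⟩ := fix_rat (xc R) (fun s => by
    have := congrArg xc (h s)
    rw [xc_pm] at this; exact this)
  obtain ⟨y, hy⟩ := fix_rat (yc R) (fun s => by
    have := congrArg yc (h s)
    rw [yc_pm] at this; exact this)
  have he := pt_eqn R hR
  rw [hx, hy] at he
  have he' : y ^ 2 + 2 * x * y - 949 * y = x ^ 3 := by exact_mod_cast he
  refine ⟨.some x y ((nonsingular_iff' x y).2 he'), ?_⟩
  refine pt_ext ((pm_eq_zero _).not.2 ?_) hR ?_ ?_
  · exact WeierstrassCurve.Affine.Point.some_ne_zero _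
  · rw [xc_pm, hx]; simp
  · rw [yc_pm, hy]; simp

theorem kummer_isSel {Q : Pt ℚ} {R : Pt Qbar} (h : (3 : ℕ) • R = inc Q) :
    IsSel ⊤ (fun s => act s R - R) where
  tor := fun s _ => by rw [smul_sub, ← map_nsmul, h, act_inc, sub_self]
  coc := fun s _ t _ => by
    change act (s * t) R - R = act s R - R + act s (act t R - R)
    rw [act_mul, map_sub]; abel
  cont := by
    obtain ⟨L, hL, h⟩ := exists_fix R
    exact ⟨L, hL, fun s _ hs => by rw [h s hs, sub_self]⟩
  loc := fun p _ i => ⟨pm i R, fun g s _ hr => by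
    rw [map_sub, pm_res hr]⟩

/-- a label on `E(ℚ)/3E(ℚ)` -/
theorem label_points (hTriple : TripleStmt)
    (hlab : ∃ lab : (Gam → Pt Qbar) → Fin 3, ∀ c c', IsSel ⊤ c → IsSel ⊤ c' → lab c = lab c' →
      IsCob ⊤ (fun s => c s - c' s)) :
    ∃ lab : Pt ℚ → Fin 3, ∀ Q Q', lab Q = lab Q' → ∃ S : Pt ℚ, Q - Q' = (3 : ℕ) • S := by
  obtain ⟨lab, hl⟩ := hlab
  choose R hR using fun Q : Pt ℚ => hTriple (inc Q)
  refine ⟨fun Q => lab (fun s => act s (R Q) - R Q), fun Q Q' hQ => ?_⟩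
  obtain ⟨T, hT, hcob⟩ := hl _ _ (kummer_isSel (hR Q)) (kummer_isSel (hR Q')) hQ
  obtain ⟨S, hS⟩ := exists_rational (R := R Q - R Q' - T) (by
    intro s
    have := hcob s (Subgroup.mem_top s)
    simp only at this
    rw [map_sub, map_sub]
    have h2 : act s (R Q) - act s (R Q') = (act s T - T) + (R Q - R Q') := by
      have h3 : act s (R Q) - act s (R Q') =
        (act s (R Q) - R Q - (act s (R Q') - R Q')) + (R Q - R Q') := by abel
      rw [h3, this]
    rw [h2]; abel)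
  refine ⟨S, ?_⟩
  apply pm_injective (algebraMap ℚ Qbar)
  rw [map_nsmul, map_sub]
  change inc Q - inc Q' = (3 : ℕ) • inc S
  rw [hS, smul_sub, smul_sub, hR, hR, hT, sub_zero]

theorem finite_points (hTriple : TripleStmt) (hPara : ParaStmt) (hFin : FinStmt)
    (hlab : ∃ lab : (Gam → Pt Qbar) → Fin 3, ∀ c c', IsSel ⊤ c → IsSel ⊤ c' → lab c = lab c' →
      IsCob ⊤ (fun s => c s - c' s)) : Finite (Pt ℚ) :=
  hFin (Pt ℚ) PT PT_ne_zero three_PT hPara (label_points hTriple hlab)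

end F8
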